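import Pool.Agent.helper30.QP.SpecC

/-!
# QP (MP_ebc808_nt): rows HCX, HPN
-/

set_option autoImplicit false

open Polynomial Pool.Agent.helper7.IG

noncomputable section

namespace Pool.Agent.QP

lemma HCX_E {n N m : ℕ} (hmn : m ∣ n) (hnN : n ∣ N) : N * (n / m) / m * m = N * (n / m) := by
  refine Nat.div_mul_cancel ?_
  exact (hmn.trans hnN).trans (dvd_mul_right _ _)

/-- Row HCX. -/
theorem HCX : HCX_stmt := by
  classical
  intro n N e η hRU hn hnN hN he
  have hn0 : n ≠ 0 := by rintro rfl; simp at hn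
  set F : (Σ _ : ℕ, kkˣ) → Vx := fun p => (e * (N * (n / p.1) / p.1), p.2 * η ^ (N * (n / p.1) / p.1)) with hF
  set T : Finset (Σ _ : ℕ, kkˣ) := n.divisors.sigma (fun m => RU m) with hT
  have hmemT : ∀ p : (Σ _ : ℕ, kkˣ), p ∈ T ↔ p.1 ∣ n ∧ p.2 ^ p.1 = 1 := by
    intro p
    rw [hT, Finset.mem_sigma, Nat.mem_divisors]
    constructor
    · rintro ⟨⟨h1, -⟩, h2⟩
      exact ⟨h1, (hRU p.1 (hn.of_dvd_nat h1) p.2).mp h2⟩
    · rintro ⟨h1, h2⟩
      exact ⟨⟨h1, hn0⟩, (hRU p.1 (hn.of_dvd_nat h1) p.2).mpr h2⟩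
  have hE : ∀ m : ℕ, m ∣ n → e * (N * (n / m) / m) * (m * m) = e * N * n := by
    intro m hm
    calc e * (N * (n / m) / m) * (m * m) = e * (N * (n / m) / m * m) * m := by ring
      _ = e * (N * (n / m)) * m := by rw [HCX_E hm hnN]
      _ = e * N * (n / m * m) := by ring
      _ = e * N * n := by rw [Nat.div_mul_cancel hm]
  have hinj : Set.InjOn F T := by
    intro p hp q hq hpq
    obtain ⟨m, ζ⟩ := p
    obtain ⟨m', ζ'⟩ := q
    have hm := ((hmemT _).mp hp).1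
    have hm' := ((hmemT _).mp hq).1
    simp only at hm hm'
    rw [hF] at hpq
    simp only [Prod.mk.injEq] at hpq
    obtain ⟨h1, h2⟩ := hpq
    have h3 := hE m hm
    have h4 := hE m' hm'
    rw [← h1] at h4
    have hpos : 0 < e * (N * (n / m) / m) := by
      rcases Nat.eq_zero_or_pos (e * (N * (n / m) / m)) with h0 | h0
      · rw [h0, zero_mul] at h3
        exact absurd h3.symm (mul_ne_zero (mul_ne_zero he hN) hn0)
      · exact h0
    have h5 : m * m = m' * m' := Nat.eq_of_mul_eq_mul_left hpos (h3.trans h4.symm)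
    have h6 : m = m' := by
      exact Nat.mul_self_inj.mp h5
    subst h6
    have h7 : ζ = ζ' := mul_right_cancel h2
    rw [h7]
  refine ⟨T.image F, ?_, ?_⟩
  · intro u
    rw [Finset.mem_image]
    constructor
    · rintro ⟨⟨m, ζ⟩, hp, rfl⟩
      obtain ⟨hm, hζ⟩ := (hmemT _).mp hp
      simp only at hm hζ
      refine ⟨m, hm, hE m hm, ?_⟩
      simp only [hF]
      rw [mul_pow, hζ, one_mul, ← pow_mul, ← pow_mul, HCX_E hm hnN]
    · rintro ⟨m, hm, h1, h2⟩
      simp only at h1 h2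
      have hm0 : 0 < m := Nat.pos_of_dvd_of_pos hm (Nat.pos_of_ne_zero hn0)
      have h3 : u.1 = e * (N * (n / m) / m) :=
        Nat.eq_of_mul_eq_mul_right (Nat.mul_pos hm0 hm0) (h1.trans (hE m hm).symm)
      refine ⟨⟨m, u.2 * (η ^ (N * (n / m) / m))⁻¹⟩, ?_, ?_⟩
      · rw [hmemT]
        refine ⟨hm, ?_⟩
        simp only
        rw [mul_pow, h2, inv_pow, ← pow_mul, ← pow_mul, HCX_E hm hnN, mul_inv_cancel]
      · simp only [hF]
        refine Prod.ext ?_ ?_
        · simp only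
          rw [h3]
        · simp only
          rw [inv_mul_cancel_right]
  · intro W
    rw [Finset.sum_image hinj, hT, Finset.sum_sigma]
    unfold HC
    rw [map_sum]
    refine Finset.sum_congr rfl fun m hm => ?_
    rw [map_sum]
    refine Finset.sum_congr rfl fun ζ _ => ?_
    have hmn : m ∣ n := Nat.dvd_of_mem_divisors hm
    have hE0 : N * (n / m) / m ≠ 0 := by
      intro h0
      have h3 := hE m hmn
      rw [h0, mul_zero, zero_mul] at h3
      exact absurd h3.symm (mul_ne_zero (mul_ne_zero he hN) hn0)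
    unfold kap
    rw [map_div₀, map_add, sig_sig he hE0]

lemma HPN_sig {e : ℕ} (he : e ≠ 0) (ζ ξ : kkˣ) (F : LL) : sig e ζ (sig 1 ξ F) = sig e (ξ * ζ) F := by
  rw [sig_sig he one_ne_zero, mul_one, pow_one]

/-- Row HPN. -/
theorem HPN (hPNS : PNS_stmt) (hHVS : HVS_stmt) (hME : ME_stmt) : HPN_stmt := by
  classical
  intro F N l hF hN hsq hl hl2 hl3 hNl
  obtain ⟨hFM, N0, hN0, hinv⟩ := hF
  obtain ⟨Ξ, hΞ, hPN⟩ := hPNS N hN hsq
  have hlo : Odd l := hl.odd_of_ne_two hl2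
  refine ⟨3 * l * N ^ 3 * N0 * l, ?_, ?_⟩
  · exact ((((by decide : Odd 3).mul hlo).mul hN.pow).mul hN0).mul hlo
  intro Φ h B c c' hB hdB hFx hc hc' hcc
  have hB0 : 0 < B := hB.pos
  have hl1 : 1 < l := hl.one_lt
  have hlB : l ∣ B := (dvd_mul_left l _).trans hdB
  have hd3 : 3 * l * N ^ 3 ∣ B := by
    refine Dvd.dvd.trans ?_ hdB
    exact ⟨N0 * l, by ring⟩
  have hlN0 : l * N0 ∣ B := by
    refine Dvd.dvd.trans ?_ hdB
    exact ⟨3 * l * N ^ 3, by ring⟩
  -- the basic formula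
  have key : ∀ b : Vx, Nb l (B, 1) b → sig b.1 b.2 (PN N F) = ∑ ξ ∈ Ξ, sig (ov l B b ξ).1 (ov l B b ξ).2 F := by
    intro b hb
    rw [hPN, map_sum]
    have hcase : (b.1 = l * B ∧ b.2 = 1) ∨ (B = l * b.1 ∧ b.2 ^ l = 1) := by
      rcases hb with ⟨h1, h2⟩ | ⟨h1, h2⟩
      · left
        exact ⟨h1, by simpa using h2⟩
      · right
        exact ⟨h1, h2⟩
    rcases hcase with ⟨h1, h2⟩ | ⟨h1, h2⟩
    · have hb0 : b.1 ≠ 0 := by
        rw [h1]
        exact mul_ne_zero hl.ne_zero hB0.ne'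
      refine Eq.symm ?_
      have hov : ∀ ξ, ov l B b ξ = (l * B, ξ ^ (l * l)) := fun ξ => by
        unfold ov
        rw [if_pos h1]
      -- the map `ξ ↦ ξ ^ (l * l)` permutes `Ξ`
      have hmaps : ∀ ξ ∈ Ξ, ξ ^ (l * l) ∈ Ξ := by
        intro ξ hξ
        rw [hΞ] at hξ ⊢
        rw [orderOf_pow' ξ (mul_ne_zero hl.ne_zero hl.ne_zero), hξ]
        have h3 : Nat.gcd N (l * l) = 1 := Nat.Coprime.mul_right hNl hNl
        rw [h3, Nat.div_one]
      have hinj : Set.InjOn (fun ξ : kkˣ => ξ ^ (l * l)) Ξ := by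
        intro ξ hξ ξ' hξ' hh
        simp only at hh
        have h4 : (ξ : kkˣ) ^ N = 1 := by
          rw [← (hΞ ξ).mp hξ]
          exact pow_orderOf_eq_one ξ
        have h5 : (ξ' : kkˣ) ^ N = 1 := by
          rw [← (hΞ ξ').mp hξ']
          exact pow_orderOf_eq_one ξ'
        have h6 : (ξ * ξ'⁻¹) ^ N = 1 := by
          rw [mul_pow, h4, inv_pow, h5, inv_one, mul_one]
        have h7 : (ξ * ξ'⁻¹) ^ (l * l) = 1 := by
          rw [mul_pow, hh, inv_pow, mul_inv_cancel]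
        have h8 : orderOf (ξ * ξ'⁻¹) ∣ Nat.gcd N (l * l) :=
          Nat.dvd_gcd (orderOf_dvd_of_pow_eq_one h6) (orderOf_dvd_of_pow_eq_one h7)
        have h9 : Nat.gcd N (l * l) = 1 := Nat.Coprime.mul_right hNl hNl
        rw [h9, Nat.dvd_one, orderOf_eq_one_iff] at h8
        exact mul_inv_eq_one.mp h8
      have himg : Ξ.image (fun ξ : kkˣ => ξ ^ (l * l)) = Ξ :=
        Finset.eq_of_subset_of_card_le (Finset.image_subset_iff.mpr hmaps)
          (by rw [Finset.card_image_of_injOn hinj])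
      calc ∑ ξ ∈ Ξ, sig (ov l B b ξ).1 (ov l B b ξ).2 F
          = ∑ ξ ∈ Ξ, sig (l * B) (ξ ^ (l * l)) F := by
            refine Finset.sum_congr rfl fun ξ _ => ?_
            rw [hov ξ]
        _ = ∑ ξ ∈ Ξ.image (fun ξ : kkˣ => ξ ^ (l * l)), sig (l * B) ξ F := by
            rw [Finset.sum_image hinj]
        _ = ∑ ξ ∈ Ξ, sig (l * B) ξ F := by rw [himg]
        _ = ∑ ξ ∈ Ξ, sig b.1 b.2 (sig 1 ξ F) := by
            refine Finset.sum_congr rfl fun ξ _ => ?_
            rw [HPN_sig hb0, h2, mul_one, h1]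
    · have hb0 : b.1 ≠ 0 := by
        intro h0
        rw [h0, mul_zero] at h1
        exact hB0.ne' h1
      have h3 : b.1 ≠ l * B := by
        intro h3
        have h4 : B * 1 = B * (l * l) := by
          calc B * 1 = l * b.1 := by rw [mul_one]; exact h1
            _ = B * (l * l) := by rw [h3]; ring
        have h5 : 1 = l * l := Nat.eq_of_mul_eq_mul_left hB0 h4
        have h6 : l = 1 := Nat.eq_one_of_mul_eq_one_left h5.symm
        omega
      have h4 : B / l = b.1 := by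
        rw [h1, Nat.mul_div_cancel_left _ hl.pos]
      refine Finset.sum_congr rfl fun ξ _ => ?_
      unfold ov
      rw [if_neg h3, HPN_sig hb0]
      simp only
      rw [h4, mul_comm]
  -- oddness of the vertices
  have hovb : ∀ (b : Vx) (ξ : kkˣ), Nb l (B, 1) b → Odd (ov l B b ξ).1 ∧ N0 ∣ (ov l B b ξ).1 := by
    intro b ξ _
    unfold ov
    split_ifs with h1
    · simp only
      exact ⟨hlo.mul hB, ((dvd_mul_left N0 l).trans hlN0).trans (dvd_mul_left _ _)⟩
    · simp only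
      obtain ⟨t, ht⟩ := hlN0
      have h2 : B / l = N0 * t := by
        rw [ht, mul_assoc, Nat.mul_div_cancel_left _ hl.pos]
      refine ⟨?_, ?_⟩
      · exact hB.of_dvd_nat (Nat.div_dvd_of_dvd hlB)
      · rw [h2]
        exact dvd_mul_right _ _
  have hmem : ∀ (b : Vx) (ξ : kkˣ), Nb l (B, 1) b → sig (ov l B b ξ).1 (ov l B b ξ).2 F ∈ MM :=
    fun b ξ hb => hME _ _ _ (hovb b ξ hb).1 hFM
  rw [key c hc, key c' hc', Frame.cl_sum Φ Ξ _ (fun ξ _ => hmem c ξ hc),
    Frame.cl_sum Φ Ξ _ (fun ξ _ => hmem c' ξ hc'), map_sum]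
  refine Finset.sum_congr rfl fun ξ hξ => ?_
  have hξN : ξ ^ N = 1 := by
    rw [← (hΞ ξ).mp hξ]
    exact pow_orderOf_eq_one ξ
  obtain ⟨h1, h2⟩ := hHVS Φ h B l N c c' ξ hB hl hl2 hl3 hNl hd3 hFx hc hc' hcc hξN
  exact hinv Φ h _ _ (hovb c ξ hc).1 (hovb c' ξ hc').1 (hovb c ξ hc).2 (hovb c' ξ hc').2 h1 h2

end Pool.Agent.QP
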