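import Pool.Agent.helper30.QP.SpecC

/-!
# QP (MP_ebc808_nt): rows UPM, DNM, HVS
-/

set_option autoImplicit false

open Polynomial Pool.Agent.helper7.IG

noncomputable section

namespace Pool.Agent.QP

lemma UPM_up_up (p M : ℕ) (v : Vx) : up p (up M v) = up (p * M) v := by
  unfold up
  refine Prod.ext ?_ ?_
  · simp only; ring
  · simp only
    rw [← pow_mul, mul_comm]

lemma UPM_up_one (v : Vx) : up 1 v = v := by
  unfold up
  refine Prod.ext ?_ ?_ <;> simp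

lemma UPM_Nb {l : ℕ} (M : ℕ) {w x : Vx} (h : Nb l w x) : Nb l (up M w) (up M x) := by
  unfold up
  rcases h with ⟨h1, h2⟩ | ⟨h1, h2⟩
  · left
    refine ⟨?_, ?_⟩
    · simp only
      rw [h1]; ring
    · simp only
      rw [h2, ← pow_mul, ← pow_mul, mul_comm]
  · right
    refine ⟨?_, ?_⟩
    · simp only
      rw [h1]; ring
    · simp only
      rw [← h2, ← pow_mul, ← pow_mul, mul_comm]

lemma UPM_odd {l : ℕ} (hl : Odd l) {w x : Vx} (hw : Odd w.1) (h : Nb l w x) : Odd x.1 := by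
  rcases h with ⟨h1, -⟩ | ⟨h1, -⟩
  · rw [h1]
    exact hl.mul hw
  · rw [h1] at hw
    exact (Nat.odd_mul.mp hw).2

lemma UPM_ne {w : Vx} (h : Odd w.1) : w.1 ≠ 0 := by
  intro h0
  rw [h0] at h
  exact absurd h (by decide)

lemma UPM_prime (hUNI : UNI_stmt) (hDI : DI_stmt) (hNB : NB_stmt) (Φ : Frame) (h : Φ.A ≃ₐ[kk] Φ.A)
    (l p : ℕ) (w x y : Vx) (hl : l.Prime) (hl2 : l ≠ 2) (hp : p.Prime) (hp2 : p ≠ 2) (hpl : p ≠ l)
    (hw : Odd w.1) (hx : Odd x.1) (hy : Odd y.1) (hlw : l ∣ w.1) (hpx : p ∣ x.1) (hpy : p ∣ y.1)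
    (hf : h (Φ.D (up p w)) = Φ.D (up p w)) (hS : Sq Φ h l w x y) :
    Sq Φ h l (up p w) (up p x) (up p y) := by
  obtain ⟨-, hwx, hwy, hxy⟩ := hS
  have hpo : Odd p := hp.odd_of_ne_two hp2
  have hlo : Odd l := hl.odd_of_ne_two hl2
  have hupw : Odd (up p w).1 := hpo.mul hw
  obtain ⟨u', hu', hgu'⟩ := hNB Φ h x y p hp hp2 hx hy hpx hpy hxy (up p x) (Or.inl ⟨rfl, rfl⟩)
  obtain ⟨u'', hu'', hgu''⟩ := hNB Φ h (up p w) (up p w) l hl hl2 hupw hupw
    (hlw.trans (dvd_mul_left _ _)) (hlw.trans (dvd_mul_left _ _)) hf (up p x) (UPM_Nb p hwx)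
  have huu : u' = u'' := by
    refine hDI Φ u' u'' (UPM_odd hpo hy hu') (UPM_odd hlo hupw hu'') ?_
    rw [← hgu', hgu'']
  subst huu
  have h1 : u' = up p y := hUNI l p y (up p w) u' (up p y) hl hp hpl.symm (UPM_ne hy) (UPM_ne hupw)
    hu' hu'' (Or.inl ⟨rfl, rfl⟩) (UPM_Nb p hwy)
  subst h1
  exact ⟨hf, UPM_Nb p hwx, UPM_Nb p hwy, hgu'⟩

/-- Row UPM. -/
theorem UPM (hUNI : UNI_stmt) (hDI : DI_stmt) (hNB : NB_stmt) : UPM_stmt := by
  intro Φ h l M w x y hl hl2 hM hMl hw hx hy hlw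
  refine induction_on_primes (motive := fun M => Odd M → M.Coprime l → M ∣ x.1 → M ∣ y.1 →
    (∀ M', M' ∣ M → h (Φ.D (up M' w)) = Φ.D (up M' w)) →
    Sq Φ h l w x y → Sq Φ h l (up M w) (up M x) (up M y)) ?_ ?_ ?_ M hM hMl
  · intro h0
    exact absurd h0 (by decide)
  · intro _ _ _ _ _ hS
    rwa [UPM_up_one, UPM_up_one, UPM_up_one]
  · intro p M hp ih hM hMl hx' hy' hf hS
    obtain ⟨hpo, hMo⟩ := Nat.odd_mul.mp hM
    have hp2 : p ≠ 2 := by
      rintro rfl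
      exact absurd hpo (by decide)
    have hpl : p ≠ l := by
      rintro rfl
      have h1 := Nat.Coprime.coprime_mul_right hMl
      rw [Nat.coprime_self] at h1
      exact hp.one_lt.ne' h1
    have hMl' : M.Coprime l := Nat.Coprime.coprime_mul_left hMl
    have h1 := ih hMo hMl' ((dvd_mul_left M p).trans hx') ((dvd_mul_left M p).trans hy')
      (fun M' hM' => hf M' (hM'.trans (dvd_mul_left M p))) hS
    rw [← UPM_up_up, ← UPM_up_up, ← UPM_up_up]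
    refine UPM_prime hUNI hDI hNB Φ h l p _ _ _ hl hl2 hp hp2 hpl (hMo.mul hw) (hMo.mul hx)
      (hMo.mul hy) (hlw.trans (dvd_mul_left _ _)) (((dvd_mul_right p M).trans hx').trans (dvd_mul_left _ _))
      (((dvd_mul_right p M).trans hy').trans (dvd_mul_left _ _)) ?_ h1
    rw [UPM_up_up]
    exact hf _ dvd_rfl

lemma DNM_prime (hUNI : UNI_stmt) (hDI : DI_stmt) (hNB : NB_stmt) (Φ : Frame) (h : Φ.A ≃ₐ[kk] Φ.A)
    (l p : ℕ) (w x y : Vx) (hl : l.Prime) (hl2 : l ≠ 2) (hp : p.Prime) (hp2 : p ≠ 2) (hpl : p ≠ l)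
    (hw : Odd w.1) (hx : Odd x.1) (hy : Odd y.1) (hlw : l ∣ w.1)
    (hf : h (Φ.D w) = Φ.D w) (hwx : Nb l w x) (hwy : Nb l w y)
    (hS : Sq Φ h l (up p w) (up p x) (up p y)) : Sq Φ h l w x y := by
  obtain ⟨-, -, -, hxy⟩ := hS
  have hpo : Odd p := hp.odd_of_ne_two hp2
  have hlo : Odd l := hl.odd_of_ne_two hl2
  obtain ⟨u', hu', hgu'⟩ := hNB Φ h (up p x) (up p y) p hp hp2 (hpo.mul hx) (hpo.mul hy)
    (dvd_mul_right _ _) (dvd_mul_right _ _) hxy x (Or.inr ⟨rfl, rfl⟩)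
  obtain ⟨u'', hu'', hgu''⟩ := hNB Φ h w w l hl hl2 hw hw hlw hlw hf x hwx
  have hupy : Odd (up p y).1 := hpo.mul hy
  have huu : u' = u'' := by
    refine hDI Φ u' u'' (UPM_odd hpo hupy hu') (UPM_odd hlo hw hu'') ?_
    rw [← hgu', hgu'']
  subst huu
  have h1 : u' = y := hUNI l p (up p y) w u' y hl hp hpl.symm (UPM_ne hupy) (UPM_ne hw)
    hu' hu'' (Or.inr ⟨rfl, rfl⟩) hwy
  subst h1
  exact ⟨hf, hwx, hwy, hgu'⟩

/-- Row DNM. -/
theorem DNM (hUNI : UNI_stmt) (hDI : DI_stmt) (hNB : NB_stmt) : DNM_stmt := by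
  intro Φ h l M w x y hl hl2 hM hMl hw hx hy hlw
  refine induction_on_primes (motive := fun M => Odd M → M.Coprime l →
    (∀ M', M' ∣ M → h (Φ.D (up M' w)) = Φ.D (up M' w)) → Nb l w x → Nb l w y →
    Sq Φ h l (up M w) (up M x) (up M y) → Sq Φ h l w x y) ?_ ?_ ?_ M hM hMl
  · intro h0
    exact absurd h0 (by decide)
  · intro _ _ _ _ _ hS
    rwa [UPM_up_one, UPM_up_one, UPM_up_one] at hS
  · intro p M hp ih hM hMl hf hwx hwy hS
    obtain ⟨hpo, hMo⟩ := Nat.odd_mul.mp hM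
    have hp2 : p ≠ 2 := by
      rintro rfl
      exact absurd hpo (by decide)
    have hpl : p ≠ l := by
      rintro rfl
      have h1 := Nat.Coprime.coprime_mul_right hMl
      rw [Nat.coprime_self] at h1
      exact hp.one_lt.ne' h1
    have hMl' : M.Coprime l := Nat.Coprime.coprime_mul_left hMl
    rw [← UPM_up_up, ← UPM_up_up, ← UPM_up_up] at hS
    have h1 := DNM_prime hUNI hDI hNB Φ h l p _ _ _ hl hl2 hp hp2 hpl (hMo.mul hw) (hMo.mul hx)
      (hMo.mul hy) (hlw.trans (dvd_mul_left _ _)) (hf M (dvd_mul_left M p)) (UPM_Nb M hwx)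
      (UPM_Nb M hwy) hS
    exact ih hMo hMl' (fun M' hM' => hf M' (hM'.trans (dvd_mul_left M p))) hwx hwy h1

/-- The facts about `ov`. -/
lemma HVS_ov {B l N : ℕ} (hB : 0 < B) (hl : 1 < l) (hlB : l ∣ B) {c : Vx} {ξ : kkˣ} (hξ : ξ ^ N = 1)
    (h : Nb l (B, 1) c) : Nb l (B, ξ ^ l) (ov l B c ξ) ∧ up N (ov l B c ξ) = up N c := by
  have hl0 : 0 < l := by omega
  rcases h with ⟨h1, h2⟩ | ⟨h1, h2⟩
  · simp only at h1 h2
    unfold ov
    rw [if_pos h1]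
    refine ⟨Or.inl ⟨rfl, ?_⟩, ?_⟩
    · simp only
      rw [← pow_mul]
    · unfold up
      refine Prod.ext ?_ ?_
      · simp only
        rw [h1]
      · simp only
        rw [h2, one_pow, one_pow, ← pow_mul, mul_comm, pow_mul, hξ, one_pow]
  · simp only at h1 h2
    have h3 : c.1 ≠ l * B := by
      intro h3
      have h4 : B * 1 = B * (l * l) := by
        calc B * 1 = l * c.1 := by rw [mul_one]; exact h1
          _ = B * (l * l) := by rw [h3]; ring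
      have h5 : 1 = l * l := Nat.eq_of_mul_eq_mul_left hB h4
      have h6 : l = 1 := Nat.eq_one_of_mul_eq_one_left h5.symm
      omega
    have h4 : B / l = c.1 := by
      rw [h1, Nat.mul_div_cancel_left _ hl0]
    unfold ov
    rw [if_neg h3]
    refine ⟨Or.inr ⟨?_, ?_⟩, ?_⟩
    · simp only
      rw [h4]
      exact h1
    · simp only
      rw [mul_pow, h2, one_mul]
    · unfold up
      refine Prod.ext ?_ ?_
      · simp only
        rw [h4]
      · simp only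
        rw [mul_pow, hξ, mul_one]

lemma HVS_dvd {B l K : ℕ} (hK : l * K ∣ B) (hl : 0 < l) {c : Vx} {η : kkˣ} (h : Nb l (B, η) c) : K ∣ c.1 := by
  rcases h with ⟨h1, -⟩ | ⟨h1, -⟩
  · simp only at h1
    rw [h1]
    exact ((dvd_mul_left K l).trans hK).trans (dvd_mul_left _ _)
  · simp only at h1
    rw [h1] at hK
    exact Nat.dvd_of_mul_dvd_mul_left hl hK

/-- Row HVS. -/
theorem HVS (hUPM : UPM_stmt) (hDNM : DNM_stmt) : HVS_stmt := by
  intro Φ h B l N c c' ξ hB hl hl2 hl3 hNl hd hFx hc hc' hcc hξ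
  have hlo : Odd l := hl.odd_of_ne_two hl2
  have hB0 : 0 < B := hB.pos
  have hl1 : 1 < l := hl.one_lt
  have hlB : l ∣ B := (Dvd.intro_left (3 : ℕ) rfl : l ∣ 3 * l).trans ((dvd_mul_right _ _).trans hd)
  have hN3 : l * N ^ 3 ∣ B := by
    refine Dvd.dvd.trans ?_ hd
    exact ⟨3, by ring⟩
  have hNo : Odd N := by
    obtain ⟨t, ht⟩ := hd
    rw [ht] at hB
    have h1 := (Nat.odd_mul.mp (Nat.odd_mul.mp hB).1).2
    have h2 : N ∣ N ^ 3 := dvd_pow_self N (by norm_num)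
    exact h1.of_dvd_nat h2
  -- at the level of `(B, 1)`
  have hfix1 : ∀ M', M' ∣ N → h (Φ.D (up M' (B, 1))) = Φ.D (up M' (B, 1)) := by
    intro M' hM'
    have h1 := hFx M' 1 1 (hNl.coprime_dvd_left hM') (Nat.coprime_one_left l) ?_ (one_pow 1)
    · have h2 : up M' (B, 1) = (B * M', 1) := by
        unfold up
        refine Prod.ext ?_ ?_
        · simp only; ring
        · simp only; rw [one_pow]
      rw [h2]
      exact h1
    · rw [one_pow, mul_one]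
      exact (hM'.trans (dvd_pow_self N (by norm_num))).trans ((dvd_mul_left _ _).trans hN3)
  have hBfix : h (Φ.D (B, 1)) = Φ.D (B, 1) := by
    have h1 := hfix1 1 (one_dvd N)
    rwa [UPM_up_one] at h1
  have hNN : l * N ∣ B := by
    refine Dvd.dvd.trans ?_ hN3
    exact ⟨N ^ 2, by ring⟩
  have hS1 : Sq Φ h l (up N (B, 1)) (up N c) (up N c') :=
    hUPM Φ h l N (B, 1) c c' hl hl2 hNo hNl hB (UPM_odd hlo hB hc) (UPM_odd hlo hB hc') hlB
      (HVS_dvd hNN hl.pos hc) (HVS_dvd hNN hl.pos hc') hfix1 ⟨hBfix, hc, hc', hcc⟩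
  -- over `(B, ξ ^ l)`
  obtain ⟨hx, hxN⟩ := HVS_ov hB0 hl1 hlB hξ hc
  obtain ⟨hy, hyN⟩ := HVS_ov hB0 hl1 hlB hξ hc'
  have hwN : up N (B, ξ ^ l) = up N (B, 1) := by
    unfold up
    refine Prod.ext rfl ?_
    simp only
    rw [← pow_mul, mul_comm, pow_mul, hξ, one_pow, one_pow]
  have hfix2 : ∀ M', M'.Coprime l → M' * N ^ 2 ∣ B →
      h (Φ.D (up M' (B, ξ ^ l))) = Φ.D (up M' (B, ξ ^ l)) := by
    intro M' hM' hMB
    have h1 := hFx M' N (ξ ^ (l * M')) hM' hNl hMB (by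
      rw [← pow_mul, mul_comm, pow_mul, hξ, one_pow])
    have h2 : up M' (B, ξ ^ l) = (B * M', ξ ^ (l * M')) := by
      unfold up
      refine Prod.ext ?_ ?_
      · simp only; ring
      · simp only; rw [← pow_mul]
    rw [h2]
    exact h1
  have hxo : Odd (ov l B c ξ).1 := UPM_odd hlo (w := (B, ξ ^ l)) hB hx
  have hyo : Odd (ov l B c' ξ).1 := UPM_odd hlo (w := (B, ξ ^ l)) hB hy
  have hS2 : Sq Φ h l (B, ξ ^ l) (ov l B c ξ) (ov l B c' ξ) := by
    refine hDNM Φ h l N (B, ξ ^ l) _ _ hl hl2 hNo hNl hB hxo hyo hlB ?_ hx hy ?_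
    · intro M' hM'
      refine hfix2 M' (hNl.coprime_dvd_left hM') ?_
      have h3 : M' * N ^ 2 ∣ N * N ^ 2 := Nat.mul_dvd_mul_right hM' _
      refine h3.trans (Dvd.dvd.trans ?_ hN3)
      exact ⟨l, by ring⟩
    · rw [hwN, hxN, hyN]
      exact hS1
  refine ⟨hS2.2.2.2, ?_⟩
  have h3l : Nat.Coprime 3 l := (Nat.coprime_primes Nat.prime_three hl).mpr hl3.symm
  have h3B : l * 3 ∣ B := by
    refine Dvd.dvd.trans ?_ hd
    exact ⟨N ^ 3, by ring⟩
  have hS3 := hUPM Φ h l 3 (B, ξ ^ l) _ _ hl hl2 (by decide) h3l hB hxo hyo hlB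
    (HVS_dvd h3B hl.pos hx) (HVS_dvd h3B hl.pos hy) ?_ hS2
  · exact hS3.2.2.2
  · intro M' hM'
    refine hfix2 M' (h3l.coprime_dvd_left hM') ?_
    have h4 : M' * N ^ 2 ∣ 3 * N ^ 2 := Nat.mul_dvd_mul_right hM' _
    refine h4.trans (Dvd.dvd.trans ?_ hd)
    exact ⟨l * N, by ring⟩

end Pool.Agent.QP
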