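import Pool.Agent.helper30.QP.SpecK
import Pool.Agent.helper30.QP.UPM
import Pool.Agent.helper30.QP.HCX

/-!
# QP (MP_ebc808_nt): rows HV2, HP2
-/

set_option autoImplicit false

open Polynomial Pool.Agent.helper7.IG

noncomputable section

namespace Pool.Agent.QP

/-- Row HV2. -/
theorem HV2 (hUPM : UPM_stmt) (hDNM : DNM_stmt) : HV2_stmt := by
  intro Φ h B l N c c' ξ hB hl hl2 hl3 hNl hd hFx hc hc' hcc hξ
  have hlo : Odd l := hl.odd_of_ne_two hl2
  have hB0 : 0 < B := hB.pos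
  have hl1 : 1 < l := hl.one_lt
  have hlB : l ∣ B := (Dvd.intro_left (3 : ℕ) rfl : l ∣ 3 * l).trans ((dvd_mul_right _ _).trans hd)
  have hN3 : l * N ^ 3 ∣ B := by
    refine Dvd.dvd.trans ?_ hd
    exact ⟨3, by ring⟩
  have hNo : Odd N := by
    obtain ⟨t, ht⟩ := hd
    rw [ht] at hB
    have h1 := (Nat.odd_mul.mp (Nat.odd_mul.mp hB).1).2
    have h2 : N ∣ N ^ 3 := dvd_pow_self N (by norm_num)
    exact h1.of_dvd_nat h2
  -- at the level of `(B, 1)`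
  have hfix1 : ∀ M', M' ∣ N → h (Φ.D (up M' (B, 1))) = Φ.D (up M' (B, 1)) := by
    intro M' hM'
    have h1 := hFx M' 1 (hM'.trans (dvd_mul_left _ _)) (one_pow N)
    have h2 : up M' (B, 1) = (B * M', 1) := by
      unfold up
      refine Prod.ext ?_ ?_
      · simp only; ring
      · simp only; rw [one_pow]
    rw [h2]
    exact h1
  have hBfix : h (Φ.D (B, 1)) = Φ.D (B, 1) := by
    have h1 := hfix1 1 (one_dvd N)
    rwa [UPM_up_one] at h1
  have hNN : l * N ∣ B := by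
    refine Dvd.dvd.trans ?_ hN3
    exact ⟨N ^ 2, by ring⟩
  have hS1 : Sq Φ h l (up N (B, 1)) (up N c) (up N c') :=
    hUPM Φ h l N (B, 1) c c' hl hl2 hNo hNl hB (UPM_odd hlo hB hc) (UPM_odd hlo hB hc') hlB
      (HVS_dvd hNN hl.pos hc) (HVS_dvd hNN hl.pos hc') hfix1 ⟨hBfix, hc, hc', hcc⟩
  -- over `(B, ξ ^ l)`
  obtain ⟨hx, hxN⟩ := HVS_ov hB0 hl1 hlB hξ hc
  obtain ⟨hy, hyN⟩ := HVS_ov hB0 hl1 hlB hξ hc'
  have hwN : up N (B, ξ ^ l) = up N (B, 1) := by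
    unfold up
    refine Prod.ext rfl ?_
    simp only
    rw [← pow_mul, mul_comm, pow_mul, hξ, one_pow, one_pow]
  have hfix2 : ∀ M', M' ∣ 3 * N →
      h (Φ.D (up M' (B, ξ ^ l))) = Φ.D (up M' (B, ξ ^ l)) := by
    intro M' hM'
    have h1 := hFx M' (ξ ^ (l * M')) hM' (by
      rw [← pow_mul, mul_comm, pow_mul, hξ, one_pow])
    have h2 : up M' (B, ξ ^ l) = (B * M', ξ ^ (l * M')) := by
      unfold up
      refine Prod.ext ?_ ?_
      · simp only; ring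
      · simp only; rw [← pow_mul]
    rw [h2]
    exact h1
  have hxo : Odd (ov l B c ξ).1 := UPM_odd hlo (w := (B, ξ ^ l)) hB hx
  have hyo : Odd (ov l B c' ξ).1 := UPM_odd hlo (w := (B, ξ ^ l)) hB hy
  have hS2 : Sq Φ h l (B, ξ ^ l) (ov l B c ξ) (ov l B c' ξ) := by
    refine hDNM Φ h l N (B, ξ ^ l) _ _ hl hl2 hNo hNl hB hxo hyo hlB ?_ hx hy ?_
    · intro M' hM'
      exact hfix2 M' (hM'.trans (dvd_mul_left _ _))
    · rw [hwN, hxN, hyN]
      exact hS1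
  refine ⟨hS2.2.2.2, ?_⟩
  have h3l : Nat.Coprime 3 l := (Nat.coprime_primes Nat.prime_three hl).mpr hl3.symm
  have h3B : l * 3 ∣ B := by
    refine Dvd.dvd.trans ?_ hd
    exact ⟨N ^ 3, by ring⟩
  have hS3 := hUPM Φ h l 3 (B, ξ ^ l) _ _ hl hl2 (by decide) h3l hB hxo hyo hlB
    (HVS_dvd h3B hl.pos hx) (HVS_dvd h3B hl.pos hy) ?_ hS2
  · exact hS3.2.2.2
  · intro M' hM'
    exact hfix2 M' (hM'.trans (dvd_mul_right _ _))

/-- Row HP2. -/
theorem HP2 (hPNS : PNS_stmt) (hHV2 : HV2_stmt) (hME : ME_stmt) : HP2_stmt := by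
  classical
  intro F N l hF hN hsq hl hl2 hl3 hNl
  obtain ⟨hFM, N0, hN0, hinv⟩ := hF
  obtain ⟨Ξ, hΞ, hPN⟩ := hPNS N hN hsq
  have hlo : Odd l := hl.odd_of_ne_two hl2
  refine ⟨3 * l * N ^ 3 * N0 * l, ?_, ?_⟩
  · exact ((((by decide : Odd 3).mul hlo).mul hN.pow).mul hN0).mul hlo
  intro Φ h B hB hdB hFx
  have hB0 : 0 < B := hB.pos
  have hl1 : 1 < l := hl.one_lt
  have hlB : l ∣ B := (dvd_mul_left l _).trans hdB
  have hd3 : 3 * l * N ^ 3 ∣ B := by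
    refine Dvd.dvd.trans ?_ hdB
    exact ⟨N0 * l, by ring⟩
  have hlN0 : l * N0 ∣ B := by
    refine Dvd.dvd.trans ?_ hdB
    exact ⟨3 * l * N ^ 3, by ring⟩
  -- the basic formula
  have key : ∀ b : Vx, Nb l (B, 1) b → sig b.1 b.2 (PN N F) = ∑ ξ ∈ Ξ, sig (ov l B b ξ).1 (ov l B b ξ).2 F := by
    intro b hb
    rw [hPN, map_sum]
    have hcase : (b.1 = l * B ∧ b.2 = 1) ∨ (B = l * b.1 ∧ b.2 ^ l = 1) := by
      rcases hb with ⟨h1, h2⟩ | ⟨h1, h2⟩
      · left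
        exact ⟨h1, by simpa using h2⟩
      · right
        exact ⟨h1, h2⟩
    rcases hcase with ⟨h1, h2⟩ | ⟨h1, h2⟩
    · have hb0 : b.1 ≠ 0 := by
        rw [h1]
        exact mul_ne_zero hl.ne_zero hB0.ne'
      refine Eq.symm ?_
      have hov : ∀ ξ, ov l B b ξ = (l * B, ξ ^ (l * l)) := fun ξ => by
        unfold ov
        rw [if_pos h1]
      -- the map `ξ ↦ ξ ^ (l * l)` permutes `Ξ`
      have hmaps : ∀ ξ ∈ Ξ, ξ ^ (l * l) ∈ Ξ := by
        intro ξ hξ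
        rw [hΞ] at hξ ⊢
        rw [orderOf_pow' ξ (mul_ne_zero hl.ne_zero hl.ne_zero), hξ]
        have h3 : Nat.gcd N (l * l) = 1 := Nat.Coprime.mul_right hNl hNl
        rw [h3, Nat.div_one]
      have hinj : Set.InjOn (fun ξ : kkˣ => ξ ^ (l * l)) Ξ := by
        intro ξ hξ ξ' hξ' hh
        simp only at hh
        have h4 : (ξ : kkˣ) ^ N = 1 := by
          rw [← (hΞ ξ).mp hξ]
          exact pow_orderOf_eq_one ξ
        have h5 : (ξ' : kkˣ) ^ N = 1 := by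
          rw [← (hΞ ξ').mp hξ']
          exact pow_orderOf_eq_one ξ'
        have h6 : (ξ * ξ'⁻¹) ^ N = 1 := by
          rw [mul_pow, h4, inv_pow, h5, inv_one, mul_one]
        have h7 : (ξ * ξ'⁻¹) ^ (l * l) = 1 := by
          rw [mul_pow, hh, inv_pow, mul_inv_cancel]
        have h8 : orderOf (ξ * ξ'⁻¹) ∣ Nat.gcd N (l * l) :=
          Nat.dvd_gcd (orderOf_dvd_of_pow_eq_one h6) (orderOf_dvd_of_pow_eq_one h7)
        have h9 : Nat.gcd N (l * l) = 1 := Nat.Coprime.mul_right hNl hNl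
        rw [h9, Nat.dvd_one, orderOf_eq_one_iff] at h8
        exact mul_inv_eq_one.mp h8
      have himg : Ξ.image (fun ξ : kkˣ => ξ ^ (l * l)) = Ξ :=
        Finset.eq_of_subset_of_card_le (Finset.image_subset_iff.mpr hmaps)
          (by rw [Finset.card_image_of_injOn hinj])
      calc ∑ ξ ∈ Ξ, sig (ov l B b ξ).1 (ov l B b ξ).2 F
          = ∑ ξ ∈ Ξ, sig (l * B) (ξ ^ (l * l)) F := by
            refine Finset.sum_congr rfl fun ξ _ => ?_
            rw [hov ξ]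
        _ = ∑ ξ ∈ Ξ.image (fun ξ : kkˣ => ξ ^ (l * l)), sig (l * B) ξ F := by
            rw [Finset.sum_image hinj]
        _ = ∑ ξ ∈ Ξ, sig (l * B) ξ F := by rw [himg]
        _ = ∑ ξ ∈ Ξ, sig b.1 b.2 (sig 1 ξ F) := by
            refine Finset.sum_congr rfl fun ξ _ => ?_
            rw [HPN_sig hb0, h2, mul_one, h1]
    · have hb0 : b.1 ≠ 0 := by
        intro h0
        rw [h0, mul_zero] at h1
        exact hB0.ne' h1
      have h3 : b.1 ≠ l * B := by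
        intro h3
        have h4 : B * 1 = B * (l * l) := by
          calc B * 1 = l * b.1 := by rw [mul_one]; exact h1
            _ = B * (l * l) := by rw [h3]; ring
        have h5 : 1 = l * l := Nat.eq_of_mul_eq_mul_left hB0 h4
        have h6 : l = 1 := Nat.eq_one_of_mul_eq_one_left h5.symm
        omega
      have h4 : B / l = b.1 := by
        rw [h1, Nat.mul_div_cancel_left _ hl.pos]
      refine Finset.sum_congr rfl fun ξ _ => ?_
      unfold ov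
      rw [if_neg h3, HPN_sig hb0]
      simp only
      rw [h4, mul_comm]
  -- oddness of the vertices
  have hovb : ∀ (b : Vx) (ξ : kkˣ), Nb l (B, 1) b → Odd (ov l B b ξ).1 ∧ N0 ∣ (ov l B b ξ).1 := by
    intro b ξ _
    unfold ov
    split_ifs with h1
    · simp only
      exact ⟨hlo.mul hB, ((dvd_mul_left N0 l).trans hlN0).trans (dvd_mul_left _ _)⟩
    · simp only
      obtain ⟨t, ht⟩ := hlN0
      have h2 : B / l = N0 * t := by
        rw [ht, mul_assoc, Nat.mul_div_cancel_left _ hl.pos]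
      refine ⟨?_, ?_⟩
      · exact hB.of_dvd_nat (Nat.div_dvd_of_dvd hlB)
      · rw [h2]
        exact dvd_mul_right _ _
  have hmem : ∀ (b : Vx) (ξ : kkˣ), Nb l (B, 1) b → sig (ov l B b ξ).1 (ov l B b ξ).2 F ∈ MM :=
    fun b ξ hb => hME _ _ _ (hovb b ξ hb).1 hFM
  have hξN : ∀ ξ ∈ Ξ, ξ ^ N = 1 := by
    intro ξ hξ
    rw [← (hΞ ξ).mp hξ]
    exact pow_orderOf_eq_one ξ
  refine ⟨?_, ?_⟩
  · have hN0B : N0 ∣ B := (dvd_mul_left N0 l).trans hlN0
    have hkey : sig B 1 (PN N F) = ∑ ξ ∈ Ξ, sig B ξ F := by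
      rw [hPN, map_sum]
      refine Finset.sum_congr rfl fun ξ _ => ?_
      rw [HPN_sig hB0.ne', mul_one]
    have hmemB : ∀ ξ ∈ Ξ, sig B ξ F ∈ MM := fun ξ _ => hME _ _ _ hB hFM
    rw [hkey, Frame.cl_sum Φ Ξ _ hmemB, map_sum]
    refine Finset.sum_congr rfl fun ξ hξ => ?_
    have h1 := hFx 1 ξ (one_dvd _) (hξN ξ hξ)
    rw [mul_one] at h1
    have h2 := hFx 3 (ξ ^ 3) (dvd_mul_right _ _) (by
      rw [← pow_mul, mul_comm, pow_mul, hξN ξ hξ, one_pow])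
    have h3 : up 3 (B, ξ) = (B * 3, ξ ^ 3) := by
      unfold up
      refine Prod.ext ?_ ?_
      · simp only; ring
      · simp only
    rw [← h3] at h2
    exact hinv Φ h (B, ξ) (B, ξ) hB hB hN0B hN0B h1 h2
  · intro c c' hc hc' hcc
    rw [key c hc, key c' hc', Frame.cl_sum Φ Ξ _ (fun ξ _ => hmem c ξ hc),
      Frame.cl_sum Φ Ξ _ (fun ξ _ => hmem c' ξ hc'), map_sum]
    refine Finset.sum_congr rfl fun ξ hξ => ?_
    obtain ⟨h1, h2⟩ := hHV2 Φ h B l N c c' ξ hB hl hl2 hl3 hNl hd3 hFx hc hc' hcc (hξN ξ hξ)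
    exact hinv Φ h _ _ (hovb c ξ hc).1 (hovb c' ξ hc').1 (hovb c ξ hc).2 (hovb c' ξ hc').2 h1 h2

end Pool.Agent.QP
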