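import Pool.Agent.helper19.QP.SpecS
import Pool.Agent.helper99.EP.JREC

/-!
# QP (MP_ebc808_nt): row TJN
-/

set_option autoImplicit false

open Finset

noncomputable section

namespace Pool.Agent.QP

open Pool.Agent.helper7.IG (kk LL sig DDk MM im2 ps Vx Nb Frame)
open Pool.Agent.LQ (FF DD)
open Pool.Agent.EP (KK ww vvx WW JG ac pp IsT)

lemma TJN_ext {l : ℕ} (h : ∀ i : ℕ, 1 ≤ i → ∃ g ∈ JS, IsT l (jj ^ i) g) :
    ∀ f ∈ JS, ∃ g ∈ JS, IsT l f g := by
  intro f hf
  unfold JS at hf
  induction hf using Submodule.span_induction with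
  | mem x hx =>
    obtain ⟨i, hi, rfl⟩ := hx
    exact h i hi
  | zero =>
    refine ⟨0, JS.zero_mem, fun M => ?_⟩
    simp
  | add x y _ _ hx hy =>
    obtain ⟨g1, hg1, h1⟩ := hx
    obtain ⟨g2, hg2, h2⟩ := hy
    refine ⟨g1 + g2, JS.add_mem hg1 hg2, fun M => ?_⟩
    rw [HahnSeries.coeff_add, h1 M, h2 M, HahnSeries.coeff_add, HahnSeries.coeff_add]
    split_ifs <;> ring
  | smul a x _ hx =>
    obtain ⟨g1, hg1, h1⟩ := hx
    refine ⟨a • g1, JS.smul_mem a hg1, fun M => ?_⟩
    rw [HahnSeries.coeff_smul, h1 M, HahnSeries.coeff_smul, HahnSeries.coeff_smul]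
    split_ifs
    · rw [smul_add]
    · rw [add_zero, add_zero]

lemma TJN_one (M : ℤ) : jj.coeff M = JG jc 1 M := by
  unfold JG
  rw [Nat.divisors_one, Finset.filter_singleton, if_pos (by simp), Finset.sum_singleton]
  simp [jc]

/-- Row TJN. -/
theorem TJN (hTJL : TJL_stmt) (hTJT : TJT_stmt) : TJN_stmt := by
  intro n
  induction n using Nat.strong_induction_on with
  | _ j ih =>
    intro hj
    by_cases h1 : j = 1
    · subst h1
      refine ⟨jj, Submodule.subset_span ⟨1, le_refl _, (pow_one _).symm⟩, TJN_one⟩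
    · have hl : (Nat.minFac j).Prime := Nat.minFac_prime h1
      set l := Nat.minFac j with hldef
      have hlj : l ∣ j := Nat.minFac_dvd j
      have hlo : Odd l := hj.of_dvd_nat hlj
      have hext : ∀ f ∈ JS, ∃ g ∈ JS, IsT l f g := by
        refine TJN_ext ?_
        by_cases hl3 : l = 3
        · rw [hl3]
          exact hTJT
        · have hl5 : 5 ≤ l := by
            by_contra hlt
            push Not at hlt
            have h2 := hl.two_le
            interval_cases l
            · exact absurd hlo (by decide)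
            · exact hl3 rfl
            · exact absurd hlo (by decide)
          exact fun i hi => hTJL l i hl hl5 hi
      obtain ⟨j', hj'⟩ := hlj
      have hj0 : 0 < j := hj.pos
      have hj'0 : 0 < j' := by
        rcases Nat.eq_zero_or_pos j' with h | h
        · rw [h] at hj'; omega
        · exact h
      have hl2 := hl.two_le
      have hj'lt : j' < j := by
        rw [hj']
        nlinarith
      have hcj' : Odd j' := hj.of_dvd_nat (Dvd.intro_left l hj'.symm)
      obtain ⟨f', hf', hf'c⟩ := ih j' hj'lt hcj'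
      obtain ⟨g, hg, hgT⟩ := hext f' hf'
      have hrec : ∀ M : ℤ, g.coeff M = JG jc j M + (if l ∣ j' then JG jc (j' / l) M else 0) := by
        intro M
        rw [hgT M, hf'c, hf'c, hj']
        exact Pool.Agent.EP.JREC jc l j' M hl hj'0
      by_cases hd : l ∣ j'
      · obtain ⟨k, hk⟩ := hd
        have hk0 : 0 < k := by
          rcases Nat.eq_zero_or_pos k with h | h
          · rw [h] at hk; omega
          · exact h
        have hklt : k < j := by
          have : k ≤ j' := by rw [hk]; nlinarith
          omega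
        have hck : Odd k := hcj'.of_dvd_nat (Dvd.intro_left l hk.symm)
        obtain ⟨f2, hf2, hf2c⟩ := ih k hklt hck
        refine ⟨g + f2, JS.add_mem hg hf2, fun M => ?_⟩
        have hdiv : j' / l = k := by
          rw [hk]; exact Nat.mul_div_cancel_left k hl.pos
        rw [HahnSeries.coeff_add, hrec M, if_pos (Dvd.intro k hk.symm), hdiv, hf2c, add_assoc,
          CharTwo.add_self_eq_zero, add_zero]
      · refine ⟨g, hg, fun M => ?_⟩
        rw [hrec M, if_neg hd, add_zero]

end Pool.Agent.QP
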