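import Pool.Agent.helper19.QP.SpecV
import Pool.Agent.helper17.IG.PHI3
import Pool.Agent.helper7.IG.Basic

/-!
# QP (MP_ebc808_nt): row UHD
-/

set_option autoImplicit false

open Finset

noncomputable section

namespace Pool.Agent.QP

open Pool.Agent.helper7.IG (kk LL sig DDk MM im2 ps Vx Nb Frame)
open Pool.Agent.LQ (FF DD)

lemma UHD_two : (2 : LL) = 0 := CharTwo.two_eq_zero

lemma UHD_coeff : (UU ^ 3 * (UU + 1)).coeff 1 = 0 := by
  set P : PowerSeries kk := PowerSeries.mk (fun n => ((#{m ∈ n.divisors | m.Coprime 6} : ℕ) : kk)) with hP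
  have h0 : UU = HahnSeries.ofPowerSeries ℤ kk P := rfl
  have h1 : UU ^ 3 * (UU + 1) = HahnSeries.ofPowerSeries ℤ kk (P ^ 3 * (P + 1)) := by
    rw [h0, map_mul, map_pow, map_add, map_one]
  rw [h1]
  have h2 : PowerSeries.X ∣ P := by
    rw [PowerSeries.X_dvd_iff, hP, ← PowerSeries.coeff_zero_eq_constantCoeff_apply, PowerSeries.coeff_mk]
    simp
  have h3 : PowerSeries.X ^ 3 ∣ P ^ 3 * (P + 1) := (pow_dvd_pow_of_dvd h2 3).mul_right _
  have h4 := (PowerSeries.X_pow_dvd_iff.mp h3) 1 (by norm_num)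
  have h5 := HahnSeries.ofPowerSeries_apply_coeff (Γ := ℤ) (P ^ 3 * (P + 1)) 1
  rw [h4] at h5
  exact_mod_cast h5

/-- Row UHD. -/
theorem UHD (hUHM : UHM_stmt) : UHD_stmt := by
  have h1 : UU ^ 2 + UU = DDk + sig 3 1 DDk := hUHM
  have h2 : DDk ^ 4 + (sig 3 1 DDk) ^ 4 = DDk * sig 3 1 DDk := Pool.Agent.helper7.IG.PHI3
  unfold UHD_stmt
  have hc : (DDk).coeff 1 = 1 := by
    rw [Pool.Agent.helper7.IG.DDk_coeff, if_pos]
    exact ⟨1, by norm_num, odd_one⟩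
  have hc2 := UHD_coeff
  generalize hz : sig 3 1 DDk = z at h1 h2 ⊢
  generalize DDk = y at h1 h2 hc ⊢
  generalize UU = r at h1 hc2 ⊢
  have h3 : (y + r * (r + 1) ^ 3) * (y + r ^ 3 * (r + 1)) = 0 := by
    have h5 : (y + r * (r + 1) ^ 3) * (y + r ^ 3 * (r + 1)) =
        y ^ 2 + y * (r ^ 2 + r) + (r ^ 2 + r) ^ 4 + 2 * (y * (r ^ 2 + r) ^ 2) := by ring
    have h6 : y ^ 2 + y * (y + z) + (y + z) ^ 4 =
        (y ^ 4 + z ^ 4) + y * z + 2 * (y ^ 2 + 2 * y ^ 3 * z + 3 * y ^ 2 * z ^ 2 + 2 * y * z ^ 3) := by ring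
    rw [h5, h1, h6, h2, UHD_two, zero_mul, zero_mul, add_zero, add_zero, ← two_mul, UHD_two, zero_mul]
  have hadd : ∀ a b : LL, a + b = 0 → a = b := by
    intro a b hab
    have h7 : a + b + b = b := by rw [hab, zero_add]
    have h8 : a + b + b = a + 2 * b := by ring
    rw [h8, UHD_two, zero_mul, add_zero] at h7
    exact h7
  rcases mul_eq_zero.mp h3 with h4 | h4
  · have h5 := hadd _ _ h4
    refine ⟨h5, ?_⟩
    refine (hadd _ _ ?_)
    have h6 : z + r ^ 3 * (r + 1) = (y + z) + (y + r ^ 3 * (r + 1)) - 2 * y := by ring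
    rw [h6, ← h1, h5, UHD_two, zero_mul, sub_zero]
    have h7 : r ^ 2 + r + (r * (r + 1) ^ 3 + r ^ 3 * (r + 1)) = 2 * (r ^ 4 + 2 * r ^ 3 + 2 * r ^ 2 + r) := by ring
    rw [h7, UHD_two, zero_mul]
  · exfalso
    have h5 := hadd _ _ h4
    rw [h5, hc2] at hc
    exact zero_ne_one hc

end Pool.Agent.QP
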