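import Pool.Agent.helper30.QP.SpecK
import Pool.Agent.helper67.QP.QFIN

/-!
# QP (MP_ebc808_nt): final assembly of Theorem Q* (row FNQ)
-/

set_option autoImplicit false

open Finset

noncomputable section

namespace Pool.Agent.QP

open Pool.Agent.helper7.IG (kk LL sig DDk MM im2 ps Vx Nb Frame incl ps_coeff ps_coeff_neg ps_coeff_nat)
open Pool.Agent.LQ (FF DD)
open Pool.Agent.EP (KK ww vvx WW JG ac pp IsT)

lemma FNQ_z (x e : ZMod 2) (h : x + (e + 1) ≠ 0) : x = e := by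
  revert x e; decide

lemma FNQ_coeff (f : KK) (e : ZMod 2) (n : ℕ) :
    (psi f + algebraMap (ZMod 2) kk e • UU).coeff (n : ℤ) =
      ∑ m ∈ n.divisors, (if m.Coprime 6 then algebraMap (ZMod 2) kk (f.coeff ((m : ℤ) ^ 2) + e) else 0) := by
  rw [HahnSeries.coeff_add, HahnSeries.coeff_smul]
  unfold psi UU
  rw [ps_coeff_nat, ps_coeff_nat, ← Finset.sum_filter]
  simp only [map_add]
  rw [Finset.sum_add_distrib, Finset.sum_const, map_sum, smul_eq_mul, nsmul_eq_mul, mul_comm]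

lemma FNQ_neg (f : KK) (e : ZMod 2) (n : ℤ) (hn : n < 0) :
    (psi f + algebraMap (ZMod 2) kk e • UU).coeff n = 0 := by
  rw [HahnSeries.coeff_add, HahnSeries.coeff_smul]
  unfold psi UU
  rw [ps_coeff_neg _ _ hn, ps_coeff_neg _ _ hn, smul_zero, add_zero]

/-- Row FNQ: Theorem Q*. -/
theorem FNQ (hEJA : EJA_stmt) (hEJC : EJC_stmt) (hRLX : RLX_stmt)
    (hSEL : SEL_stmt) (hPSN : PSN_stmt) (hINVP : INVP_stmt)
    (hUR3 : UR3_stmt) (hINA : INA_stmt) (hUHM : UHM_stmt) (hUHD : UHD_stmt)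
    (hURU : URU_stmt) (hKEY : KEY_stmt) (hARI : ARI_stmt) (hCHB : CHB_stmt) : QSTAR_stmt := by
  intro S hS hD N hN e
  obtain ⟨A, K, hK, hKne, hf⟩ := hEJA S hD
  have hM0 : N * ∏ D ∈ S, D ≠ 0 := by
    apply Nat.mul_ne_zero (by omega)
    rw [Finset.prod_ne_zero_iff]
    intro D hDS h0
    have := hD D hDS
    rw [h0] at this
    omega
  obtain ⟨N₂, hsq, hN6, hcop⟩ := QFIN_rad _ hM0
  have hN2pos : 0 < N₂ := Nat.pos_of_ne_zero (fun h => by rw [h] at hsq; exact not_squarefree_zero hsq)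
  -- the sets `NN a`
  have hNN : ∀ a : ℕ, ∃ NN : Finset ℕ, a < A → Rel NN (K a) := by
    intro a
    by_cases ha : a < A
    · obtain ⟨NN, h⟩ := hRLX (K a) (hK a ha)
      exact ⟨NN, fun _ => h⟩
    · exact ⟨∅, fun h => absurd h ha⟩
  choose NN hNN using hNN
  set Nb := ∏ a ∈ range A, ∏ n ∈ NN a, n with hNb
  have hodd : Odd Nb := by
    rw [hNb]
    refine Finset.prod_induction _ Odd (fun _ _ => Odd.mul) odd_one ?_
    intro a ha
    refine Finset.prod_induction _ Odd (fun _ _ => Odd.mul) odd_one ?_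
    intro n hn
    exact (hNN a (Finset.mem_range.1 ha)).1 n hn
  have hdvd : ∀ a < A, ∀ n ∈ NN a, n ∣ Nb := by
    intro a ha n hn
    exact (Finset.dvd_prod_of_mem _ hn).trans
      (Finset.dvd_prod_of_mem (fun a => ∏ n ∈ NN a, n) (Finset.mem_range.2 ha))
  obtain ⟨c, hc⟩ := hSEL Nb A NN K hodd hNN hdvd
  have hRUm : ∀ m, Odd m → ∀ ζ : kkˣ, ζ ∈ RU m ↔ ζ ^ m = 1 := fun m hm => (hURU m hm).1
  have hpsi3 : Inv3 (psi (fK A K)) :=
    hINVP _ c Nb A NN hRUm hodd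
      (fun a ha n hn => ⟨(hNN a ha).1 n hn, hdvd a ha n hn⟩) hc
  have hUU3 : Inv3 UU := hUR3 hUHM hUHD
  have hG3 : Inv3 (psi (fK A K) + algebraMap (ZMod 2) kk (e + 1) • UU) := by
    rcases (QFIN_z e) with h | h
    · rw [h, map_zero, zero_smul, add_zero]; exact hpsi3
    · rw [h, map_one, one_smul]; exact hINA _ _ hpsi3 hUU3
  have hnc : ∀ c' : kk, psi (fK A K) + algebraMap (ZMod 2) kk (e + 1) • UU ≠ algebraMap kk LL c' := by
    intro c' hc'
    have hsig := congrArg (sig Nb 1) hc'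
    rw [map_add, hc, AlgHom.commutes] at hsig
    have h2 : ∀ x : LL, x + x = 0 := by
      intro x
      have : (2 : LL) = 0 := CharTwo.two_eq_zero
      rw [← two_mul, this, zero_mul]
    obtain ⟨hp1, hp2⟩ := hPSN Nb A NN K hodd hNN (hKne hS) hdvd (c + c')
    rcases (QFIN_z e) with h | h
    · rw [h, map_zero, zero_smul, map_zero, add_zero] at hsig
      apply hp1
      rw [map_add, ← hsig, ← add_assoc, h2, zero_add]
    · rw [h, map_one, one_smul] at hsig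
      apply hp2
      rw [map_add, ← hsig]
      have : algebraMap kk LL c + (algebraMap kk LL c + XI Nb A NN + sig Nb 1 UU) =
          (algebraMap kk LL c + algebraMap kk LL c) + (XI Nb A NN + sig Nb 1 UU) := by ring
      rw [this, h2, zero_add]
  obtain ⟨C, hC⟩ := hKEY _ N₂ hG3 (FNQ_neg _ _) hsq hN6 hnc
  refine hCHB {m : ℕ | m.Coprime (6 * N) ∧
    (∑ D ∈ S, (Fintype.card (Nat.Partition ((D * m ^ 2 + 1) / 24)) : ZMod 2)) = e} C (N₂ + 5) ?_
  intro l hl hl0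
  have hNl : N₂.Coprime l :=
    ((Nat.Prime.coprime_iff_not_dvd hl).2 (Nat.not_dvd_of_pos_of_lt hN2pos (by omega))).symm
  obtain ⟨n, hn, hne⟩ := hC l hl (by omega) hNl
  obtain ⟨m, hβ, hm0, hlm, hmn, hmN⟩ := hARI _ _ N₂ l n
    (fun n _ => FNQ_coeff (fK A K) (e + 1) n) hl hNl hne
  have hm6 : m.Coprime 6 := by
    by_contra h
    rw [if_neg h] at hβ
    exact hβ rfl
  rw [if_pos hm6] at hβ
  have hfe : (fK A K).coeff ((m : ℤ) ^ 2) = e := by
    apply FNQ_z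
    intro h
    rw [h, map_zero] at hβ
    exact hβ rfl
  obtain ⟨-, hMc⟩ := hcop m (Nat.Coprime.mul_right hm6 hmN)
  have hmN : m.Coprime N := Nat.Coprime.coprime_mul_right_right hMc
  have hmP : m.Coprime (∏ D ∈ S, D) := Nat.Coprime.coprime_mul_left_right hMc
  have hsum : (fK A K).coeff ((m : ℤ) ^ 2) =
      ∑ D ∈ S, (Fintype.card (Nat.Partition ((D * m ^ 2 + 1) / 24)) : ZMod 2) := by
    rw [hf]
    refine Finset.sum_congr rfl fun D hDS => ?_
    have hmD : m.Coprime D := Nat.Coprime.coprime_dvd_right (Finset.dvd_prod_of_mem _ hDS) hmP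
    rw [hEJC D m (hD D hDS) hm6 hmD]
    rfl
  refine ⟨m, ⟨Nat.Coprime.mul_right hm6 hmN, ?_⟩, hm0, hlm, ?_⟩
  · rw [← hsum, hfe]
  · calc m ≤ l * n := hmn
      _ ≤ l * (C * l ^ 2) := Nat.mul_le_mul_left l hn
      _ = C * l ^ 3 := by ring

end Pool.Agent.QP
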