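import Pool.Agent.helper30.QP.AllQ
import Pool.Agent.helper30.QP.FN2
import Pool.Agent.helper24.QP.KE2
import Pool.Agent.helper67.QP.KEA
import Pool.Agent.helper39.QP.ORF
import Pool.Agent.helper39.QP.REA
import Pool.Agent.helper32.QP.ORT
import Pool.Agent.helper54.QP.REL
import Pool.Agent.helper11.QP.TLI
import Pool.Agent.helper34.QP.CH2
import Pool.Agent.helper60.QP.ODD
import Pool.Agent.helper90.QP.OR2
import Pool.Agent.helper57.QP.TAY
import Pool.Agent.helper28.QP.YI2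

/-!
# QP (MP_ebc808_nt): Theorem Q** without hypotheses
-/

set_option autoImplicit false

noncomputable section

namespace Pool.Agent.QP

open Pool.Agent.helper7.IG

theorem all2_ORT : ORT_stmt := ORT allq_HP2 ANF all_PMM ig_DI ig_NB ig_ME
theorem all2_OR2 : OR2_stmt := OR2 (IDX ig_ME) (ORF all2_ORT all_PMM ig_ME)
theorem all2_YI2 : YI2_stmt := YI2 (TLI ANF (PNI ig_PSI) PNB) (PNI ig_PSI) PNB
theorem all2_KE2 : KE2_stmt :=
  KE2 all_LEMC all_PMM INT (REL REA ig_ME) (KEA ANF (HHC ANF) TAY) all2_YI2 allq_NVH all2_OR2 (FRA ig_ME) (POL ig_ME) allq_HTL (HHC ANF) INO ig_ME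

/-- **Theorem Q\*\*** -/
theorem all_QSQRT : QSQRT_stmt :=
  FN2 EJA EJC RLX all_SEL all_PSN all_INVP (UR3 DVM ig_ME) (INA ig_ME) UHM all_UHD URU all_LEMC ODD all2_KE2 ARI CH2

end Pool.Agent.QP
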