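import Pool.Agent.helper67.QP.All
import Pool.Agent.helper30.QP.FNQ
import Pool.Agent.helper30.QP.HV2
import Pool.Agent.helper88.QP.ANF
import Pool.Agent.helper88.QP.ORA
import Pool.Agent.helper59.QP.INT
import Pool.Agent.helper49.QP.ARI
import Pool.Agent.helper23.QP.CHB
import Pool.Agent.helper23.QP.FRA
import Pool.Agent.helper2.QP.HHC
import Pool.Agent.helper57.QP.HTA
import Pool.Agent.helper39.QP.HTB
import Pool.Agent.helper48.QP.HTC
import Pool.Agent.helper18.QP.HTL
import Pool.Agent.helper31.QP.IDX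
import Pool.Agent.helper20.QP.INO
import Pool.Agent.helper42.QP.KEY
import Pool.Agent.helper29.QP.NVH
import Pool.Agent.helper68.QP.ORB
import Pool.Agent.helper20.QP.PNI
import Pool.Agent.helper72.QP.POL
import Pool.Agent.helper96.QP.YIN

/-!
# QP (MP_ebc808_nt): Theorem Q* without hypotheses
-/

set_option autoImplicit false

noncomputable section

namespace Pool.Agent.QP

open Pool.Agent.helper7.IG

theorem allq_HP2 : HP2_stmt := HP2 all_PNS (HV2 all_UPM all_DNM) ig_ME
theorem allq_NVH : NVH_stmt := NVH all_HEX allq_HP2 ANF all_PMM DSC ig_FR ig_DI ig_NB ig_ME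
theorem allq_ORA : ORA_stmt := ORA allq_HP2 ANF all_PMM ig_DI ig_NB ig_ME
theorem allq_ORB : ORB_stmt := ORB (IDX ig_ME) allq_ORA ANF
theorem allq_YIN : YIN_stmt := YIN ANF (PNI ig_PSI) PNB
theorem allq_HTL : HTL_stmt := HTL HTA HTB (HTC INO)
theorem allq_KEY : KEY_stmt :=
  KEY all_LEMC all_PMM INT allq_YIN allq_NVH allq_ORB (FRA ig_ME) (POL ig_ME) allq_HTL (HHC ANF) INO ig_ME

/-- **Theorem Q\*** -/
theorem all_QSTAR : QSTAR_stmt :=
  FNQ EJA EJC RLX all_SEL all_PSN all_INVP (UR3 DVM ig_ME) (INA ig_ME) UHM all_UHD URU allq_KEY ARI CHB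

end Pool.Agent.QP
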