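import Pool.Agent.helper30.QP.SpecC

/-!
# QP (MP_ebc808_nt): rows CJG, CJS
-/

set_option autoImplicit false

open Polynomial Pool.Agent.helper7.IG

noncomputable section

namespace Pool.Agent.QP

lemma CJG_odd {n : ℕ} {v u : Vx} (hn : Odd n) (hv : Odd v.1) (h : SJ n v u) : Odd u.1 := by
  obtain ⟨m, -, hm, -⟩ := h
  have h1 : Odd (u.1 * (m * m)) := by
    rw [hm]
    exact hv.mul hn
  exact (Nat.odd_mul.mp h1).1

lemma CJG_dvd {p n : ℕ} {v u : Vx} (hv : Odd v.1) (hd : p * n ∣ v.1) (h : SJ n v u) : p ∣ u.1 := by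
  obtain ⟨m, hmn, hm, -⟩ := h
  obtain ⟨t, ht⟩ := hd
  obtain ⟨s, rfl⟩ := hmn
  have hm0 : 0 < m := by
    rcases Nat.eq_zero_or_pos m with h0 | h0
    · subst h0
      rw [ht] at hv
      simp at hv
    · exact h0
  refine ⟨t * (s * s), ?_⟩
  refine Nat.eq_of_mul_eq_mul_right (Nat.mul_pos hm0 hm0) ?_
  rw [hm, ht]
  ring

/-- Row CJG. -/
theorem CJG (hCJN : CJN_stmt) (hNB : NB_stmt) : CJG_stmt := by
  intro Φ g n
  refine induction_on_primes (motive := fun n => ∀ (v v' : Vx), Odd n → Odd v.1 → Odd v'.1 → n ∣ v.1 → n ∣ v'.1 →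
    g (Φ.D v) = Φ.D v' → ∀ u : Vx, SJ n v u → ∃ u' : Vx, SJ n v' u' ∧ g (Φ.D u) = Φ.D u') ?_ ?_ ?_ n
  · intro v v' h0
    simp at h0
  · intro v v' _ _ _ _ _ hg u hu
    obtain ⟨m, hm, h1, h2⟩ := hu
    have hm1 : m = 1 := Nat.dvd_one.mp hm
    subst hm1
    have h3 : u = v := by
      refine Prod.ext ?_ ?_
      · simpa using h1
      · simpa using h2
    subst h3
    exact ⟨v', ⟨1, dvd_rfl, by simp, by simp⟩, hg⟩
  · intro p n hp ih v v' hn hv hv' hd hd' hg u hu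
    obtain ⟨hpo, hno⟩ := Nat.odd_mul.mp hn
    have hn0 : n ≠ 0 := by rintro rfl; simp at hno
    have hp2 : p ≠ 2 := by
      rintro rfl
      exact absurd hpo (by decide)
    obtain ⟨w, hw, hwu⟩ := (hCJN p n v u hp hn0).mp hu
    obtain ⟨w', hw', hgw⟩ := ih v v' hno hv hv' ((dvd_mul_left n p).trans hd)
      ((dvd_mul_left n p).trans hd') hg w hw
    obtain ⟨u', hu', hgu⟩ := hNB Φ g w w' p hp hp2 (CJG_odd hno hv hw) (CJG_odd hno hv' hw')
      (CJG_dvd hv hd hw) (CJG_dvd hv' hd' hw') hgw u hwu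
    exact ⟨u', (hCJN p n v' u' hp hn0).mpr ⟨w', hw', hu'⟩, hgu⟩

/-- Row CJS. -/
theorem CJS (hCJG : CJG_stmt) (hDI : DI_stmt) (hME : ME_stmt) (hDVM : DVM_stmt) : CJS_stmt := by
  intro Φ g n v v' W W' S S' hn hv hv' hd hd' hg hW hW' hgW hS hS'
  have hmem : ∀ w : Vx, Odd w.1 → sig w.1 w.2 DDk ∈ MM := fun w hw => hME _ _ _ hw DDk_mem
  have hkap : ∀ (w : Vx) (F : LL), Odd w.1 → F ∈ MM → kap (sig w.1 w.2 DDk) F ∈ MM ∧
      Φ.cl (kap (sig w.1 w.2 DDk) F) = Φ.cl F / (Φ.D w + Φ.cl F) := by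
    intro w F hw hF
    have h1 := hDVM Φ F (sig w.1 w.2 DDk + F) hF (add_mem (hmem w hw) hF)
    unfold kap
    refine ⟨h1.1, ?_⟩
    rw [h1.2, Φ.cl_add _ (hmem w hw) _ hF]
    rfl
  rw [Frame.cl_sum Φ S _ (fun u hu => (hkap u W (CJG_odd hn hv ((hS u).mp hu)) hW).1),
    Frame.cl_sum Φ S' _ (fun u hu => (hkap u W' (CJG_odd hn hv' ((hS' u).mp hu)) hW').1), map_sum]
  have hex : ∀ u ∈ S, ∃ u' : Vx, SJ n v' u' ∧ g (Φ.D u) = Φ.D u' := fun u hu =>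
    hCJG Φ g n v v' hn hv hv' hd hd' hg u ((hS u).mp hu)
  choose! f hf using hex
  refine Finset.sum_bij (fun u _ => f u) ?_ ?_ ?_ ?_
  · intro u hu
    exact (hS' _).mpr (hf u hu).1
  · intro u hu w hw hfuw
    have h1 : g (Φ.D u) = g (Φ.D w) := by
      rw [(hf u hu).2, (hf w hw).2, hfuw]
    exact hDI Φ u w (CJG_odd hn hv ((hS u).mp hu)) (CJG_odd hn hv ((hS w).mp hw)) (g.injective h1)
  · intro u' hu'
    have hg' : g.symm (Φ.D v') = Φ.D v := by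
      rw [← hg]
      exact g.symm_apply_apply _
    obtain ⟨u, hu, hgu⟩ := hCJG Φ g.symm n v' v hn hv' hv hd' hd hg' u' ((hS' u').mp hu')
    have huS : u ∈ S := (hS u).mpr hu
    refine ⟨u, huS, ?_⟩
    have h2 : g (Φ.D u) = Φ.D u' := by
      rw [← hgu]
      exact g.apply_symm_apply _
    refine hDI Φ _ _ (CJG_odd hn hv' (hf u huS).1) (CJG_odd hn hv' ((hS' u').mp hu')) ?_
    rw [← (hf u huS).2, h2]
  · intro u hu
    have h1 := (hkap u W (CJG_odd hn hv ((hS u).mp hu)) hW).2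
    have h2 := (hkap (f u) W' (CJG_odd hn hv' (hf u hu).1) hW').2
    rw [h1, h2, map_div₀, map_add, hgW, (hf u hu).2]

end Pool.Agent.QP
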