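import Pool.Agent.helper30.QP.SpecC

/-!
# QP (MP_ebc808_nt): row CJN
-/

set_option autoImplicit false

open Polynomial Pool.Agent.helper7.IG

noncomputable section

namespace Pool.Agent.QP

/-- Row CJN. -/
theorem CJN : CJN_stmt := by
  intro p n v u hp hn
  obtain ⟨u1, u2⟩ := u
  obtain ⟨v1, v2⟩ := v
  have hp0 : 0 < p := hp.pos
  constructor
  · rintro ⟨m, hm, h1, h2⟩
    simp only at h1 h2
    have hm0 : 0 < m := Nat.pos_of_ne_zero (by
      rintro rfl
      rw [zero_dvd_iff] at hm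
      exact (mul_ne_zero hp.ne_zero hn) hm)
    by_cases hpm : p ∣ m
    · obtain ⟨m1, rfl⟩ := hpm
      have hm1 : m1 ∣ n := Nat.dvd_of_mul_dvd_mul_left hp0 hm
      refine ⟨(p * u1, u2 ^ p), ⟨m1, hm1, ?_, ?_⟩, Or.inr ⟨rfl, rfl⟩⟩
      · simp only
        refine Nat.eq_of_mul_eq_mul_left hp0 ?_
        calc p * (p * u1 * (m1 * m1)) = u1 * (p * m1 * (p * m1)) := by ring
          _ = v1 * (p * n) := h1
          _ = p * (v1 * n) := by ring
      · simp only
        rw [← pow_mul, h2, Nat.mul_div_mul_left _ _ hp0]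
    · have hcop : Nat.Coprime m p := ((Nat.Prime.coprime_iff_not_dvd hp).mpr hpm).symm
      have hmn : m ∣ n := hcop.dvd_of_dvd_mul_left hm
      have hpu : p ∣ u1 := by
        have h3 : p ∣ u1 * (m * m) := by
          rw [h1]
          exact ⟨v1 * n, by ring⟩
        exact (Nat.Coprime.mul_right hcop.symm hcop.symm).dvd_of_dvd_mul_right h3
      obtain ⟨w1, rfl⟩ := hpu
      have h4 : w1 * (m * m) = v1 * n := by
        refine Nat.eq_of_mul_eq_mul_left hp0 ?_
        calc p * (w1 * (m * m)) = p * w1 * (m * m) := by ring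
          _ = v1 * (p * n) := h1
          _ = p * (v1 * n) := by ring
      have h5 : (u2 : kkˣ) ^ m = (v2 ^ (n / m)) ^ p := by
        rw [h2, Nat.mul_div_assoc _ hmn, ← pow_mul, mul_comm]
      obtain ⟨x, y, hxy⟩ : ∃ x y : ℤ, (p : ℤ) * x + (m : ℤ) * y = 1 := by
        refine ⟨Nat.gcdA p m, Nat.gcdB p m, ?_⟩
        have h6 := Nat.gcd_eq_gcd_ab p m
        rw [hcop.symm] at h6
        rw [← h6]
        norm_num
      set b : kkˣ := v2 ^ (n / m) with hb
      refine ⟨(w1, u2 ^ x * b ^ y), ⟨m, hmn, h4, ?_⟩, Or.inl ⟨rfl, ?_⟩⟩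
      · simp only
        rw [← hb]
        have h7 : (u2 ^ x * b ^ y) ^ m = (u2 ^ m) ^ x * b ^ ((m : ℤ) * y) := by
          rw [mul_pow, ← zpow_natCast (u2 ^ x), ← zpow_mul, ← zpow_natCast (b ^ y), ← zpow_mul,
            ← zpow_natCast u2 m, ← zpow_mul, mul_comm x, mul_comm y]
        rw [h7, h5, ← zpow_natCast b p, ← zpow_mul, ← zpow_add, hxy, zpow_one]
      · simp only
        have h7 : (u2 ^ x * b ^ y) ^ p = u2 ^ ((p : ℤ) * x) * (b ^ p) ^ y := by
          rw [mul_pow, ← zpow_natCast (u2 ^ x), ← zpow_mul, ← zpow_natCast (b ^ y), ← zpow_mul,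
            ← zpow_natCast b p, ← zpow_mul, mul_comm x, mul_comm y]
        rw [h7, ← h5, ← zpow_natCast u2 m, ← zpow_mul, ← zpow_add, hxy, zpow_one]
  · rintro ⟨⟨w1, w2⟩, ⟨m, hm, h1, h2⟩, h | h⟩
    · simp only at h1 h2 h
      obtain ⟨rfl, rfl⟩ := h
      refine ⟨m, hm.trans (dvd_mul_left _ _), ?_, ?_⟩
      · simp only
        calc p * w1 * (m * m) = p * (w1 * (m * m)) := by ring
          _ = p * (v1 * n) := by rw [h1]
          _ = v1 * (p * n) := by ring
      · simp only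
        rw [← pow_mul, mul_comm p m, pow_mul, h2, ← pow_mul, Nat.mul_div_assoc _ hm, mul_comm]
    · simp only at h1 h2 h
      obtain ⟨rfl, rfl⟩ := h
      refine ⟨p * m, Nat.mul_dvd_mul_left p hm, ?_, ?_⟩
      · simp only
        calc u1 * (p * m * (p * m)) = p * (p * u1 * (m * m)) := by ring
          _ = p * (v1 * n) := by rw [h1]
          _ = v1 * (p * n) := by ring
      · simp only
        rw [pow_mul, h2, Nat.mul_div_mul_left _ _ hp0]

end Pool.Agent.QP
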