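import Pool.Agent.helper30.QP.SpecC

/-!
# QP (MP_ebc808_nt): row INVP
-/

set_option autoImplicit false

open Polynomial Pool.Agent.helper7.IG

noncomputable section

namespace Pool.Agent.QP

open Classical in
/-- The finite set of the conjugates of degree `n` of `v`. -/
def INVP_S (n : ℕ) (v : Vx) : Finset Vx :=
  if h : {u : Vx | SJ n v u}.Finite then h.toFinset else ∅

lemma INVP_S_eq {n : ℕ} {v : Vx} {S : Finset Vx} (h : ∀ u, u ∈ S ↔ SJ n v u) : INVP_S n v = S := by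
  have hf : {u : Vx | SJ n v u}.Finite := S.finite_toSet.subset (fun u hu => (h u).mpr hu)
  unfold INVP_S
  rw [dif_pos hf]
  ext u
  rw [Set.Finite.mem_toFinset, h u]
  rfl

lemma INVP_HC_mem (hME : ME_stmt) {n N : ℕ} (hN : Odd N) (hnN : n ∣ N) {W : LL} (hW : W ∈ MM) :
    HC n N (fun E ζ => kap (sig E ζ DDk) W) ∈ MM := by
  unfold HC
  refine sum_mem fun m hm => sum_mem fun ζ _ => ?_
  have hmn : m ∣ n := Nat.dvd_of_mem_divisors hm
  have hodd : Odd (N * (n / m) / m) := by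
    obtain ⟨t, rfl⟩ := hmn
    obtain ⟨s, rfl⟩ := hnN
    have hm0 : 0 < m := by
      rcases Nat.eq_zero_or_pos m with h0 | h0
      · subst h0
        simp at hN
      · exact h0
    rw [Nat.mul_div_cancel_left _ hm0]
    have h2 : m * t * s * t = m * (t * s * t) := by ring
    rw [h2, Nat.mul_div_cancel_left _ hm0]
    rw [Nat.odd_mul, Nat.odd_mul] at hN
    exact (hN.1.2.mul hN.2).mul hN.1.2
  have h3 := hME _ ζ DDk hodd DDk_mem
  unfold kap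
  exact div_mem hW (add_mem h3 hW)

lemma INVP_HC (hHCX : HCX_stmt) (hRU : ∀ m, Odd m → ∀ ζ : kkˣ, ζ ∈ RU m ↔ ζ ^ m = 1)
    (n N e : ℕ) (η : kkˣ) (hn : Odd n) (hnN : n ∣ N) (hN : N ≠ 0) (he : e ≠ 0) :
    (∀ u, u ∈ INVP_S n (e * N, η ^ N) ↔ SJ n (e * N, η ^ N) u) ∧
    ∀ W : LL, sig e η (HC n N (fun E ζ => kap (sig E ζ DDk) W)) =
      ∑ u ∈ INVP_S n (e * N, η ^ N), kap (sig u.1 u.2 DDk) (sig e η W) := by
  obtain ⟨S, hS, hW⟩ := hHCX n N e η hRU hn hnN hN he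
  rw [INVP_S_eq hS]
  exact ⟨hS, hW⟩

/-- The expression of `psi` at a vertex. -/
def INVP_R (A : ℕ) (NN : ℕ → Finset ℕ) (v : Vx) : LL :=
  ∑ a ∈ Finset.range A, ∑ n ∈ NN a,
    (∑ u ∈ INVP_S n v, kap (sig u.1 u.2 DDk) (sig (up 3 v).1 (up 3 v).2 DDk ^ 2 ^ (a + 1)) +
     ∑ u ∈ INVP_S n (up 3 v), kap (sig u.1 u.2 DDk) (sig v.1 v.2 DDk ^ 2 ^ (a + 1)))

lemma INVP_exp (hHCX : HCX_stmt) (hRU : ∀ m, Odd m → ∀ ζ : kkˣ, ζ ∈ RU m ↔ ζ ^ m = 1)
    (psi : LL) (c : kk) (N A : ℕ) (NN : ℕ → Finset ℕ) (hN : Odd N)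
    (hNN : ∀ a < A, ∀ n ∈ NN a, Odd n ∧ n ∣ N) (hpsi : sig N 1 psi = algebraMap kk LL c + XI N A NN)
    (v : Vx) (hv : Odd v.1) (hNv : N ∣ v.1) :
    sig v.1 v.2 psi = algebraMap kk LL c + INVP_R A NN v ∧
    ∀ a < A, ∀ n ∈ NN a, (∀ u, u ∈ INVP_S n v ↔ SJ n v u) ∧
      (∀ u, u ∈ INVP_S n (up 3 v) ↔ SJ n (up 3 v) u) := by
  have hN0 : N ≠ 0 := by rintro rfl; simp at hN
  obtain ⟨v1, v2⟩ := v
  obtain ⟨e, he⟩ := hNv
  simp only at he hv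
  rw [mul_comm] at he
  subst he
  have he0 : e ≠ 0 := by rintro rfl; simp at hv
  obtain ⟨η, rfl⟩ := exists_unit_root N hN0 v2
  have hup : up 3 (e * N, η ^ N) = (e * (3 * N), η ^ (3 * N)) := by
    unfold up
    refine Prod.ext ?_ ?_
    · simp only; ring
    · simp only
      rw [← pow_mul, mul_comm N 3]
  have h3N : 3 * N ≠ 0 := by omega
  rw [INVP_R, hup]
  refine ⟨?_, ?_⟩
  · have h1 : sig (e * N) (η ^ N) psi = sig e η (sig N 1 psi) := by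
      rw [sig_sig he0 hN0, one_mul]
    simp only
    rw [h1, hpsi, map_add, AlgHom.commutes]
    congr 1
    unfold XI
    rw [map_sum]
    refine Finset.sum_congr rfl fun a ha => ?_
    rw [map_sum]
    refine Finset.sum_congr rfl fun n hn => ?_
    obtain ⟨hno, hnN⟩ := hNN a (Finset.mem_range.mp ha) n hn
    rw [map_add, (INVP_HC hHCX hRU n N e η hno hnN hN0 he0).2,
      (INVP_HC hHCX hRU n (3 * N) e η hno (hnN.trans (dvd_mul_left _ _)) h3N he0).2,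
      map_pow, map_pow, sig_sig he0 h3N, sig_sig he0 hN0, one_mul, one_mul]
  · intro a ha n hn
    obtain ⟨hno, hnN⟩ := hNN a ha n hn
    exact ⟨(INVP_HC hHCX hRU n N e η hno hnN hN0 he0).1,
      (INVP_HC hHCX hRU n (3 * N) e η hno (hnN.trans (dvd_mul_left _ _)) h3N he0).1⟩

lemma INVP_sum_mem (hME : ME_stmt) {n : ℕ} (hn : Odd n) {v : Vx} (hv : Odd v.1) {W : LL}
    (hW : W ∈ MM) (hS : ∀ u, u ∈ INVP_S n v ↔ SJ n v u) :
    ∑ u ∈ INVP_S n v, kap (sig u.1 u.2 DDk) W ∈ MM := by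
  refine sum_mem fun u hu => ?_
  obtain ⟨m, -, hm, -⟩ := (hS u).mp hu
  have h1 : Odd (u.1 * (m * m)) := by
    rw [hm]
    exact hv.mul hn
  have h2 : Odd u.1 := (Nat.odd_mul.mp h1).1
  have h3 := hME _ u.2 DDk h2 DDk_mem
  unfold kap
  exact div_mem hW (add_mem h3 hW)

/-- Row INVP. -/
theorem INVP (hCJS : CJS_stmt) (hHCX : HCX_stmt) (hDWN : DWN_stmt) (hDVM : DVM_stmt) (hME : ME_stmt) :
    INVP_stmt := by
  intro psi c N A NN hRU hN hNN hpsi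
  have hN0 : N ≠ 0 := by rintro rfl; simp at hN
  have h3N : Odd (3 * N) := (by decide : Odd 3).mul hN
  have hXI : XI N A NN ∈ MM := by
    unfold XI
    refine sum_mem fun a ha => sum_mem fun n hn => ?_
    obtain ⟨hno, hnN⟩ := hNN a (Finset.mem_range.mp ha) n hn
    refine add_mem ?_ ?_
    · exact INVP_HC_mem hME hN hnN (pow_mem (hME _ _ _ h3N DDk_mem) _)
    · exact INVP_HC_mem hME h3N (hnN.trans (dvd_mul_left _ _)) (pow_mem (hME _ _ _ hN DDk_mem) _)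
  have hmem : psi ∈ MM := by
    apply hDWN N psi hN
    rw [hpsi]
    exact add_mem (C_mem c) hXI
  refine ⟨hmem, N, hN, ?_⟩
  intro Φ g v v' hv hv' hNv hNv' h1 h3
  have hodd3 : ∀ w : Vx, Odd w.1 → Odd (up 3 w).1 := fun w hw => (by decide : Odd 3).mul hw
  have hmemD : ∀ (w : Vx) (k : ℕ), Odd w.1 → sig w.1 w.2 DDk ^ k ∈ MM := fun w k hw =>
    pow_mem (hME _ _ _ hw DDk_mem) _
  obtain ⟨he, hS⟩ := INVP_exp hHCX hRU psi c N A NN hN hNN hpsi v hv hNv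
  obtain ⟨he', hS'⟩ := INVP_exp hHCX hRU psi c N A NN hN hNN hpsi v' hv' hNv'
  have key : ∀ (w : Vx), Odd w.1 → (∀ a < A, ∀ n ∈ NN a, (∀ u, u ∈ INVP_S n w ↔ SJ n w u) ∧
      (∀ u, u ∈ INVP_S n (up 3 w) ↔ SJ n (up 3 w) u)) →
      Φ.cl (algebraMap kk LL c + INVP_R A NN w) = algebraMap kk Φ.A c +
        ∑ a ∈ Finset.range A, ∑ n ∈ NN a,
          (Φ.cl (∑ u ∈ INVP_S n w, kap (sig u.1 u.2 DDk) (sig (up 3 w).1 (up 3 w).2 DDk ^ 2 ^ (a + 1))) +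
           Φ.cl (∑ u ∈ INVP_S n (up 3 w), kap (sig u.1 u.2 DDk) (sig w.1 w.2 DDk ^ 2 ^ (a + 1)))) := by
    intro w hw hSw
    have hm1 : ∀ a ∈ Finset.range A, ∀ n ∈ NN a,
        (∑ u ∈ INVP_S n w, kap (sig u.1 u.2 DDk) (sig (up 3 w).1 (up 3 w).2 DDk ^ 2 ^ (a + 1))) ∈ MM ∧
        (∑ u ∈ INVP_S n (up 3 w), kap (sig u.1 u.2 DDk) (sig w.1 w.2 DDk ^ 2 ^ (a + 1))) ∈ MM := by
      intro a ha n hn
      have hno := (hNN a (Finset.mem_range.mp ha) n hn).1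
      obtain ⟨h4, h5⟩ := hSw a (Finset.mem_range.mp ha) n hn
      exact ⟨INVP_sum_mem hME hno hw (hmemD _ _ (hodd3 w hw)) h4,
        INVP_sum_mem hME hno (hodd3 w hw) (hmemD _ _ hw) h5⟩
    have hR : INVP_R A NN w ∈ MM := by
      unfold INVP_R
      exact sum_mem fun a ha => sum_mem fun n hn => add_mem (hm1 a ha n hn).1 (hm1 a ha n hn).2
    rw [Φ.cl_add _ (C_mem c) _ hR, Φ.cl_alg]
    congr 1
    unfold INVP_R
    rw [Frame.cl_sum]
    · refine Finset.sum_congr rfl fun a ha => ?_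
      rw [Frame.cl_sum]
      · refine Finset.sum_congr rfl fun n hn => ?_
        exact Φ.cl_add _ (hm1 a ha n hn).1 _ (hm1 a ha n hn).2
      · exact fun n hn => add_mem (hm1 a ha n hn).1 (hm1 a ha n hn).2
    · exact fun a ha => sum_mem fun n hn => add_mem (hm1 a ha n hn).1 (hm1 a ha n hn).2
  rw [he, he', key v hv hS, key v' hv' hS', map_add, AlgEquiv.commutes]
  congr 1
  rw [map_sum]
  refine Finset.sum_congr rfl fun a ha => ?_
  rw [map_sum]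
  refine Finset.sum_congr rfl fun n hn => ?_
  obtain ⟨hno, hnN⟩ := hNN a (Finset.mem_range.mp ha) n hn
  obtain ⟨h4, h5⟩ := hS a (Finset.mem_range.mp ha) n hn
  obtain ⟨h4', h5'⟩ := hS' a (Finset.mem_range.mp ha) n hn
  have hcl : ∀ w w' : Vx, Odd w.1 → Odd w'.1 → g (Φ.D w) = Φ.D w' → ∀ k : ℕ,
      g (Φ.cl (sig w.1 w.2 DDk ^ k)) = Φ.cl (sig w'.1 w'.2 DDk ^ k) := by
    intro w w' hw hw' hg k
    rw [Frame.cl_pow Φ (hME _ _ _ hw DDk_mem), Frame.cl_pow Φ (hME _ _ _ hw' DDk_mem), map_pow]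
    have hg' : g (Φ.cl (sig w.1 w.2 DDk)) = Φ.cl (sig w'.1 w'.2 DDk) := hg
    rw [hg']
  rw [map_add]
  congr 1
  · exact hCJS Φ g n v v' _ _ _ _ hno hv hv' (hnN.trans hNv) (hnN.trans hNv') h1
      (hmemD _ _ (hodd3 v hv)) (hmemD _ _ (hodd3 v' hv'))
      (hcl _ _ (hodd3 v hv) (hodd3 v' hv') h3 _) h4 h4'
  · exact hCJS Φ g n (up 3 v) (up 3 v') _ _ _ _ hno (hodd3 v hv) (hodd3 v' hv')
      ((hnN.trans hNv).trans (dvd_mul_left _ _)) ((hnN.trans hNv').trans (dvd_mul_left _ _)) h3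
      (hmemD _ _ hv) (hmemD _ _ hv') (hcl _ _ hv hv' h1 _) h5 h5'

end Pool.Agent.QP
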