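import Pool.Agent.helper7.IG.Basic
import Pool.Agent.helper7.IG.Stmt2
import Pool.Agent.helper19.QP.Defs

/-!
# QP (MP_ebc808_nt, Theorem Q+), block 3: Lemma C and the Hauptmodul

The parity sequences of `p` on the quadratic polynomials `(D m^2 + 1)/24`, `D = 23 mod 24`, are linearly independent, together with the constant `1`, on the `m` prime to `N`.
Block 3: if `F` is a function on `X_0(3)` (`Inv3`) and the part `PN N F` of `F` with exponents prime to `N` is a rational function of `X`, then `F` is constant (`LEMC`).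

Everything lives in the development `helper7/IG` (definitions `kk LL sig MM Frame Vx Nb Ty IsT`, statements `ME DI NB NF TY TYM IND ..` of `Stmt1`, `Stmt2`, all of them are proved theorems, they may be used as hypotheses `(hME : ME_stmt)` etc.).
Rows: file `Pool/Agent/<seat>/QP/XXX.lean`, import `Pool.Agent.helper30.QP.SpecC`, namespace `Pool.Agent.QP`, `open Polynomial Pool.Agent.helper7.IG`, `noncomputable section` if needed, auxiliary lemmas prefixed `XXX_`. Useful landed files: `helper7/IG/Basic.lean` (`exists_unit_root`, `exists_primitive`, `Frame.T_D`, `Frame.exists_T`, `cl_sum`, ..), `helper34/IG/TRL.lean` (`trl_move`, `trl_nb_cases`, `trl_inv_fix`), `helper7/IG/Defs.lean` (`sig_sig`, `sig_coeff`, `sig_one`).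
-/

set_option autoImplicit false

open Polynomial Pool.Agent.helper7.IG

noncomputable section

namespace Pool.Agent.QP

/-- The vertex `(M e, ζ ^ M)` above `(e, ζ)`. -/
def up (M : ℕ) (v : Vx) : Vx := (M * v.1, v.2 ^ M)

/-- `F` is a function on `X_0(3)`: its value at a vertex depends on `D` at the vertex and at the vertex above it for the prime 3 only (for vertices divisible by a suitable `N0`). -/
def Inv3 (F : LL) : Prop :=
  F ∈ MM ∧ ∃ N0 : ℕ, Odd N0 ∧ ∀ (Φ : Frame) (g : Φ.A ≃ₐ[kk] Φ.A) (v v' : Vx), Odd v.1 → Odd v'.1 → N0 ∣ v.1 → N0 ∣ v'.1 →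
    g (Φ.D v) = Φ.D v' → g (Φ.D (up 3 v)) = Φ.D (up 3 v') → g (Φ.cl (sig v.1 v.2 F)) = Φ.cl (sig v'.1 v'.2 F)

/-- The part of `F` with exponents prime to `N`. -/
def PN (N : ℕ) (F : LL) : LL :=
  HahnSeries.ofSuppBddBelow (fun n : ℤ => if Int.gcd n (N : ℤ) = 1 then F.coeff n else 0) (by
    refine ⟨F.order, fun n hn => ?_⟩
    by_contra h
    push Not at h
    apply hn
    simp only
    rw [HahnSeries.coeff_eq_zero_of_lt_order h, ite_self])

theorem PN_coeff (N : ℕ) (F : LL) (n : ℤ) : (PN N F).coeff n = if Int.gcd n (N : ℤ) = 1 then F.coeff n else 0 := by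
  simp only [PN, HahnSeries.coeff_ofSuppBddBelow]

/-- Row PNA (short-medium). Coefficient at `n`: `(sig 1 ζ F).coeff n = ζ ^ n F.coeff n` (`sig_coeff`). The sum of `ω ^ (j n)` over `j < l` is `l = 1` (characteristic 2, `l` odd) if `l ∣ n` and `0` otherwise (geometric sum, `ω ^ n ≠ 1`).
`gcd(n, l N) = 1` iff `gcd(n, N) = 1` and not `l ∣ n`. -/
def PNA_stmt : Prop := ∀ (N l : ℕ) (F : LL) (ω : kkˣ), l.Prime → l ≠ 2 → IsPrimitiveRoot ω l →
  PN (l * N) F = PN N F + ∑ j ∈ Finset.range l, sig 1 (ω ^ j) (PN N F)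

/-- Row PNS (from PNA; medium). `PN N F` is the sum of the twists of `F` by the roots of unity of exact order `N`. Induction on `N` (`Nat.recOnPrimeCoprime`, or strong induction with `N = l N'`, `l = minFac N`, `l` prime, not dividing `N'` since `N` is squarefree). `N = 1`: `PN 1 F = F`, `Ξ = {1}`.
Step: by PNA and `sig 1 (ω ^ j) (sig 1 ξ F) = sig 1 (ξ ω ^ j) F` (`sig_sig`), `PN (l N') F = sum_ξ (F_ξ + sum_{j < l} F_(ξ ω^j)) = sum_ξ sum_{0 < j < l} F_(ξ ω^j)` (the term `j = 0` cancels `F_ξ`, characteristic 2);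
`(ξ, j) ↦ ξ ω ^ j` is a bijection of `Ξ_N' × {1, .., l-1}` onto the elements of order `l N'` (`Commute.orderOf_mul_eq_mul_orderOf_of_coprime`; conversely an element of order `l N'` is the product of its powers of order `N'` and `l`). -/
def PNS_stmt : Prop := ∀ N : ℕ, Odd N → Squarefree N →
  ∃ Ξ : Finset kkˣ, (∀ ξ : kkˣ, ξ ∈ Ξ ↔ orderOf ξ = N) ∧ ∀ F : LL, PN N F = ∑ ξ ∈ Ξ, sig 1 ξ F

/-- Row PMM (from PNS and ME_stmt; short). -/
def PMM_stmt : Prop := ∀ (N : ℕ) (F : LL), Odd N → Squarefree N → F ∈ MM → PN N F ∈ MM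

/-- Row RAT (from IND_stmt; short-medium). `incl P = sum_k xx ^ k algebraMap (P.coeff k)`. `incl P * G - incl Q = sum_k xx ^ k (algebraMap (P.coeff k) * G - algebraMap (Q.coeff k))` (`k < max` of the degrees `+ 1`), the coefficients are in `MM`, so by `IND_stmt` they vanish; take `k` with `P.coeff k ≠ 0`. -/
def RAT_stmt : Prop := ∀ (G : LL) (P Q : Polynomial kk), G ∈ MM → P ≠ 0 → incl P * G = incl Q →
  ∃ c : kk, G = algebraMap kk LL c

/-- Row HEX (from ME DI NB NF TY TYM; medium, adaptation of `trl_core` of `helper34/IG/TRL.lean`). Let `l ^ (a+1)` be the exact power of `l` dividing `B`. (1) If `g` fixes `D (B,1)` and `T` is a translation (`IsT ω T`) with `ω ^ (l ^ (a+1)) = 1` then `g T g⁻¹` fixes all `D (B M, η)` as in the statement: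
`(B M, η)` is reached from `(B,1)` by a path of a type with product `M K²` (`TY_stmt`: third part from `(B,1)` to `(B M K, 1)`, second part with `m = K` from `(B M K, 1)` to `(B M, η)`; write a small lemma for the composition of paths, or use the constructor `Ty.cons` along the second path), so by `TYM_stmt` (`M K² ∣ B`) `g⁻¹` maps `D (B M, η)` to `D v'` with `v'` of the same type,
`B ∣ v'.1 M K²` (`TY_stmt`, first part), `M K²` is prime to `l`, so `l ^ (a+1) ∣ v'.1`, and `T (D v') = D (v'.1, v'.2 ω ^ v'.1) = D v'` (`Frame.T_D`). (2) Let `γ` be as in `NF_stmt` for `(B, l)`, `ω` a primitive `l ^ (a+1)`-th root of unity, `T` its translation, `b = γ T γ⁻¹`. `γ⁻¹` fixes `D (B,1)` and moves `D (l B, 1)`, so `γ⁻¹ (D (l B,1)) = D (B/l, η)`, `η ^ l = 1`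
(`trl_move`), and `T` moves it because `ω ^ (B/l) ≠ 1`; so `b` fixes `D (B,1)` and moves `D (l B,1)`, hence `b (D (l B, 1)) = D (B/l, η₁)`, `η₁ ^ l = 1` (`trl_move`). (3) Let `B = l ^ (a+1) c`, `θ ^ (l^a) = η₁⁻¹` (`exists_unit_root`), `x c = 1 mod l`, `ω' = θ ^ x`, `T'` its translation: `ω' ^ (l^(a+1)) = 1`, `ω' ^ (B/l) = η₁⁻¹`, so `h = T' b` works. -/
def HEX_stmt : Prop := ∀ (Φ : Frame) (B l : ℕ), Odd B → l.Prime → l ≠ 2 → l ∣ B →
  ∃ h : Φ.A ≃ₐ[kk] Φ.A, (∀ (M K : ℕ) (η : kkˣ), M.Coprime l → K.Coprime l → M * K ^ 2 ∣ B → η ^ K = 1 →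
      h (Φ.D (B * M, η)) = Φ.D (B * M, η)) ∧ h (Φ.D (l * B, 1)) = Φ.D (B / l, 1)

/-- Row UNI (short). `z.1 = p^(±1) y.1 = l^(±1) w.1`, the same for `z'`; `z.1 ≠ z'.1` would give `p² = l²` or `(p l)² = 1`. So `z.1 = z'.1`, with the same signs; if one of the signs is `+` the second coordinate is determined, else `z.2 ^ p = z'.2 ^ p`, `z.2 ^ l = z'.2 ^ l`, so `z.2 = z'.2`. -/
def UNI_stmt : Prop := ∀ (l p : ℕ) (y w z z' : Vx), l.Prime → p.Prime → l ≠ p → y.1 ≠ 0 → w.1 ≠ 0 →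
  Nb p y z → Nb l w z → Nb p y z' → Nb l w z' → z = z'

/-- `h` fixes the vertex `w` and moves its `l`-neighbour `x` to `y`. -/
def Sq (Φ : Frame) (h : Φ.A ≃ₐ[kk] Φ.A) (l : ℕ) (w x y : Vx) : Prop :=
  h (Φ.D w) = Φ.D w ∧ Nb l w x ∧ Nb l w y ∧ h (Φ.D x) = Φ.D y

/-- Row UPM (from UNI DI NB; medium). Induction on `M` (prime factors), it is enough to treat `M = p` prime, `p ≠ l`, `p ≠ 2` for the vertices `up M' w, up M' x, up M' y` (`up p (up M' v) = up (p M') v`). `up p x` is a `p`-neighbour of `x`, so by `NB` for `h : D x ↦ D y` (`p ∣ x.1, y.1`) `h (D (up p x)) = D u'` with `Nb p y u'`;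
`up p x` is an `l`-neighbour of `up p w`, which is fixed by `h`, so by `NB` `h (D (up p x)) = D u''` with `Nb l (up p w) u''`. `u' = u''` by `DI`. `up p y` is also a `p`-neighbour of `y` and an `l`-neighbour of `up p w`, so `u' = up p y` by UNI. -/
def UPM_stmt : Prop := ∀ (Φ : Frame) (h : Φ.A ≃ₐ[kk] Φ.A) (l M : ℕ) (w x y : Vx), l.Prime → l ≠ 2 → Odd M → M.Coprime l →
  Odd w.1 → Odd x.1 → Odd y.1 → l ∣ w.1 → M ∣ x.1 → M ∣ y.1 → (∀ M', M' ∣ M → h (Φ.D (up M' w)) = Φ.D (up M' w)) →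
  Sq Φ h l w x y → Sq Φ h l (up M w) (up M x) (up M y)

/-- Row DNM (from UNI DI NB; medium, like UPM in the other direction). `M = p` prime: `x` is a `p`-neighbour of `up p x`, so `h (D x) = D u'` with `Nb p (up p y) u'`, and an `l`-neighbour of `w` (fixed), so `h (D x) = D u''`, `Nb l w u''`; `u' = u''` (`DI`), and `y` has both properties, so `u' = y` (UNI). -/
def DNM_stmt : Prop := ∀ (Φ : Frame) (h : Φ.A ≃ₐ[kk] Φ.A) (l M : ℕ) (w x y : Vx), l.Prime → l ≠ 2 → Odd M → M.Coprime l →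
  Odd w.1 → Odd x.1 → Odd y.1 → l ∣ w.1 → (∀ M', M' ∣ M → h (Φ.D (up M' w)) = Φ.D (up M' w)) → Nb l w x → Nb l w y →
  Sq Φ h l (up M w) (up M x) (up M y) → Sq Φ h l w x y

/-- The `l`-neighbour over `(B, ξ ^ l)` which corresponds to the `l`-neighbour `c` of `(B, 1)` (`ξ ^ N = 1`, `N` prime to `l`). -/
def ov (l B : ℕ) (c : Vx) (ξ : kkˣ) : Vx := if c.1 = l * B then (l * B, ξ ^ (l * l)) else (B / l, c.2 * ξ)

/-- `h` fixes the vertices which are prime to `l` away from `(B, 1)`. -/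
def Fx (Φ : Frame) (h : Φ.A ≃ₐ[kk] Φ.A) (B l : ℕ) : Prop :=
  ∀ (M K : ℕ) (η : kkˣ), M.Coprime l → K.Coprime l → M * K ^ 2 ∣ B → η ^ K = 1 → h (Φ.D (B * M, η)) = Φ.D (B * M, η)

/-- Row HVS (from UPM DNM; medium). Up from `(B,1), c, c'` by `N` (UPM; `up M' (B,1) = (B M', 1)` is fixed, `M' ∣ N ∣ B`; `N ∣ B/l` since `l N³ ∣ B`): `Sq (up N (B,1)) (up N c) (up N c')`. Put `w = (B, ξ ^ l)`, `x = ov l B c ξ`, `y = ov l B c' ξ`: `up N w = up N (B,1)`, `up N x = up N c`, `up N y = up N c'` (`ξ ^ N = 1`; `c = (l B, 1)` or `c = (B/l, ζ)`, `ζ ^ l = 1`), `Nb l w x`, `Nb l w y`,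
`up M' w = (B M', ξ ^ (l M'))` is fixed (`K = N`, `M' N² ∣ B`). DNM gives `Sq w x y`: first claim. Then UPM with `M = 3` (`up 3 w` is fixed: `3 N² ∣ B`; `3 ∣ B/l`): second claim. -/
def HVS_stmt : Prop := ∀ (Φ : Frame) (h : Φ.A ≃ₐ[kk] Φ.A) (B l N : ℕ) (c c' : Vx) (ξ : kkˣ), Odd B → l.Prime → l ≠ 2 → l ≠ 3 → N.Coprime l → 3 * l * N ^ 3 ∣ B →
  Fx Φ h B l → Nb l (B, 1) c → Nb l (B, 1) c' → h (Φ.D c) = Φ.D c' → ξ ^ N = 1 →
  h (Φ.D (ov l B c ξ)) = Φ.D (ov l B c' ξ) ∧ h (Φ.D (up 3 (ov l B c ξ))) = Φ.D (up 3 (ov l B c' ξ))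

/-- Row HPN (from PNS HVS ME; medium). `N0` from `Inv3`, `B0 = 3 l N³ N0 l`. `sig e ζ (PN N F) = sum_(ξ ∈ Ξ) sig e (ξ ζ) F` (PNS, `sig_sig`). For `c = (B/l, ζ)` the terms are `sig` at `ov l B c ξ`; for `c = (l B, 1)` the terms are `sig (l B) ξ F`, and `ξ ↦ ξ ^ (l*l)` is a bijection of `Ξ` (`l` prime to `N`), so they are again `sig` at `ov l B c ξ`. `cl_sum`, `map_sum`, and `Inv3` with HVS for every term. -/
def HPN_stmt : Prop := ∀ (F : LL) (N l : ℕ), Inv3 F → Odd N → Squarefree N → l.Prime → l ≠ 2 → l ≠ 3 → N.Coprime l →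
  ∃ B0 : ℕ, Odd B0 ∧ ∀ (Φ : Frame) (h : Φ.A ≃ₐ[kk] Φ.A) (B : ℕ) (c c' : Vx), Odd B → B0 ∣ B → Fx Φ h B l → Nb l (B, 1) c → Nb l (B, 1) c' →
    h (Φ.D c) = Φ.D c' → h (Φ.cl (sig c.1 c.2 (PN N F))) = Φ.cl (sig c'.1 c'.2 (PN N F))

/-- Row DSC (short). Coefficients at `e n` (`sig_coeff_mul`): `ψ.coeff n = ψ.coeff (n / (l*l))` if `l*l ∣ n`, else `0`; so for `n ≠ 0` the coefficient vanishes (strong induction on `|n|`). -/
def DSC_stmt : Prop := ∀ (e l : ℕ) (ψ : LL), e ≠ 0 → 2 ≤ l → sig (l * l * e) 1 ψ = sig e 1 ψ → ∃ c : kk, ψ = algebraMap kk LL c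

/-- Row ONE (from PNA PMM HEX HPN DSC FR DI NB; medium). `ψ = PN N F`, in `MM`. `PN (l N) F = 0` and PNA: `ψ = sum_j sig 1 (ω ^ j) ψ`, so `sig 1 η ψ = ψ` for `η ^ l = 1` (`η = ω ^ i` permutes the sum), hence `sig e η ψ = sig e 1 ψ` for `η ^ l = 1` (`sig_sig`). Take a Frame `Φ` (`FR_stmt`), `B = B0 l` (odd, `l ∣ B`), `h` from HEX. `b = cl (sig (l B) 1 ψ)`, `a = cl (sig (B/l) 1 ψ)`:
`h b = a` (HPN with `c = (l B,1)`, `c' = (B/l, 1)`). `h` maps `D (B/l, η)`, `η ^ l = 1`, to `D c'`, `c'` an `l`-neighbour of `(B,1)` (`NB`); for two different `η` (`1` and `ω`) the images are different (`DI`), so for one of them `c' ≠ (l B, 1)`, `c' = (B/l, η')`, and HPN gives `h a = a`. So `h b = h a`, `b = a`, `sig (l B) 1 ψ = sig (B/l) 1 ψ` (`cl_inj_iff`, ME), and DSC with `e = B/l`. -/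
def ONE_stmt : Prop := ∀ (F : LL) (N l : ℕ), Inv3 F → Odd N → Squarefree N → l.Prime → l ≠ 2 → l ≠ 3 → N.Coprime l →
  PN (l * N) F = 0 → ∃ c : kk, PN N F = algebraMap kk LL c

/-- Row LEMC (from PMM RAT ONE; short-medium). `PN N F` is in `MM` (PMM), so a constant (RAT). Induction on the number of primes of `N`: claim `PN N F` constant implies `F` constant. `N = 1`: `PN 1 F = F`. `N = l N'`: the coefficient of `PN N F` at `0` is `0` (`gcd(0,N) = N ≠ 1`), so `PN N F = 0`, and `PN N' F` is a constant by ONE. -/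
def LEMC_stmt : Prop := ∀ (F : LL) (N : ℕ), Inv3 F → Squarefree N → N.Coprime 6 →
  (∃ P Q : Polynomial kk, P ≠ 0 ∧ incl P * PN N F = incl Q) → ∃ c : kk, F = algebraMap kk LL c

/-! ### The functions `UU` and `psi` are functions on `X_0(3)` -/

/-- Row DVM (short). `cl F = cl (F/G * G) = cl (F/G) cl G`, `cl G ≠ 0` for `G ≠ 0` (`cl_inj`); for `G = 0` both sides are `0`. `MM` is a field. -/
def DVM_stmt : Prop := ∀ (Φ : Frame) (F G : LL), F ∈ MM → G ∈ MM → F / G ∈ MM ∧ Φ.cl (F / G) = Φ.cl F / Φ.cl G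

/-- Row UR3 (short; from `DVM ME` and the two formulas for the Hauptmodul, rows UHM and UHD of `Pool.Agent.helper19.QP.SpecV`). With `y = DDk`, `z = sig 3 1 DDk`, `r = UU`, `s = y + z = r (r+1)`: `z + s² = r³(r+1) + r²(r+1)² = r²(r+1) = r s`, and `s ≠ 0`, so `UU = z / (y + z) + y + z`.
`N0 = 1`: `sig v.1 v.2` is a ring homomorphism, `sig v.1 v.2 z = sig (3 v.1) (v.2 ^ 3) DDk` (`sig_sig`), so `cl (sig v UU) = D (up 3 v) / (D v + D (up 3 v)) + D v + D (up 3 v)` for every odd `v`; apply `g`. -/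
def UR3_stmt : Prop := UU ^ 2 + UU = DDk + sig 3 1 DDk → DDk = UU * (UU + 1) ^ 3 ∧ sig 3 1 DDk = UU ^ 3 * (UU + 1) → Inv3 UU

/-- Row INA (short). `N0` is the product of the two. -/
def INA_stmt : Prop := ∀ F G : LL, Inv3 F → Inv3 G → Inv3 (F + G)

/-- `u` is a conjugate of degree `n` of `v`: `u = (v.1 (n/m)/m, ξ)` with `m ∣ n`, `ξ ^ m = v.2 ^ (n/m)`. -/
def SJ (n : ℕ) (v u : Vx) : Prop := ∃ m : ℕ, m ∣ n ∧ u.1 * (m * m) = v.1 * n ∧ u.2 ^ m = v.2 ^ (n / m)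

/-- Row CJN (medium, 80 lines). (⇐) `w.1 m² = v.1 n`, `w.2 ^ m = v.2 ^ (n/m)`. `u = (p w.1, w.2 ^ p)`: take `m` again (`p n / m = p (n/m)`). `w.1 = p u.1`, `u.2 ^ p = w.2`: take `p m`.
(⇒) `u.1 m² = v.1 p n`, `m ∣ p n`. If `m = p m₁`: `m₁ ∣ n`, `w = (p u.1, u.2 ^ p)`. If `p` does not divide `m`: `m ∣ n`, `p ∣ u.1` (`p ∣ u.1 m²`), `w.1 = u.1 / p`, and with integers `p x + m y = 1` put `w.2 = u.2 ^ x (v.2 ^ (n/m)) ^ y`: `w.2 ^ p = u.2 ^ (p x) (v.2 ^ (p (n/m))) ^ y = u.2 ^ (p x) u.2 ^ (m y) = u.2`,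
`w.2 ^ m = (u.2 ^ m) ^ x (v.2 ^ (n/m)) ^ (m y) = (v.2 ^ (n/m)) ^ (p x + m y) = v.2 ^ (n/m)`. -/
def CJN_stmt : Prop := ∀ (p n : ℕ) (v u : Vx), p.Prime → n ≠ 0 → (SJ (p * n) v u ↔ ∃ w : Vx, SJ n v w ∧ Nb p w u)

/-- Row CJG (medium-short, 60 lines; from `CJN NB`). Induction on `n` (`induction_on_primes`, or strong induction). `n = 1`: `u = v`, `u' = v'`. `n = p n₁`: by CJN there is `w` with `SJ n₁ v w`, `Nb p w u`; by induction `w'` with `SJ n₁ v' w'`, `g (D w) = D w'`. `w.1 m² = v.1 n₁`, `m ∣ n₁`, `v.1 = p n₁ t`: `w.1 = p t (n₁/m)²`, so `p ∣ w.1`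
(the same for `w'`), `w.1 ∣ v.1 n₁` is odd. Apply `NB` and CJN. -/
def CJG_stmt : Prop := ∀ (Φ : Frame) (g : Φ.A ≃ₐ[kk] Φ.A) (n : ℕ) (v v' : Vx), Odd n → Odd v.1 → Odd v'.1 → n ∣ v.1 → n ∣ v'.1 →
  g (Φ.D v) = Φ.D v' → ∀ u : Vx, SJ n v u → ∃ u' : Vx, SJ n v' u' ∧ g (Φ.D u) = Φ.D u'

/-- Row CJS (medium, 80 lines; from `CJG DI ME DVM`). For `u` with `SJ n v u` (so `u.1` is odd) `g (cl (kap (sig u.1 u.2 DDk) W)) = g (cl W / (D u + cl W)) = cl W' / (D u' + cl W') = cl (kap (sig u'.1 u'.2 DDk) W')`, `u'` from CJG. `u ↦ u'` is a bijection of `S` onto `S'`: injective since `g` is injective and by `DI`; surjective: apply CJG to `g⁻¹` and use `DI`.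
`cl_sum`, `Finset.sum_bij`. -/
def CJS_stmt : Prop := ∀ (Φ : Frame) (g : Φ.A ≃ₐ[kk] Φ.A) (n : ℕ) (v v' : Vx) (W W' : LL) (S S' : Finset Vx), Odd n → Odd v.1 → Odd v'.1 → n ∣ v.1 → n ∣ v'.1 →
  g (Φ.D v) = Φ.D v' → W ∈ MM → W' ∈ MM → g (Φ.cl W) = Φ.cl W' → (∀ u, u ∈ S ↔ SJ n v u) → (∀ u, u ∈ S' ↔ SJ n v' u) →
  g (Φ.cl (∑ u ∈ S, kap (sig u.1 u.2 DDk) W)) = Φ.cl (∑ u ∈ S', kap (sig u.1 u.2 DDk) W')

/-- Row HCX (medium, 90 lines; `RU` from `Pool.Agent.helper19.QP.Defs`; `URU` is row URU of SpecV, its first part is the hypothesis). `sig e η (sig E ζ DDk) = sig (e E) (ζ η ^ E) DDk` (`sig_sig`; `E = N (n/m)/m ≠ 0`, exact division, `m ∣ n ∣ N`). The map `(m, ζ) ↦ (e E, ζ η ^ E)` is a bijection of the pairs `m ∣ n`, `ζ ^ m = 1` onto the `u` with `SJ n (e N, η ^ N) u`: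
`e E m² = e N (n/m) m = e N n`, `(ζ η ^ E) ^ m = η ^ (N (n/m))`; injective since `e E` determines `m` (`e E m² = e N n`); surjective: `ζ = u.2 η ^ (-E)`. `S` = the image. -/
def HCX_stmt : Prop := ∀ (n N e : ℕ) (η : kkˣ), (∀ m, Odd m → ∀ ζ : kkˣ, ζ ∈ RU m ↔ ζ ^ m = 1) → Odd n → n ∣ N → N ≠ 0 → e ≠ 0 →
  ∃ S : Finset Vx, (∀ u, u ∈ S ↔ SJ n (e * N, η ^ N) u) ∧
    ∀ W : LL, sig e η (HC n N (fun E ζ => kap (sig E ζ DDk) W)) = ∑ u ∈ S, kap (sig u.1 u.2 DDk) (sig e η W)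

/-- Row DWN (medium, 80 lines; from PSI_stmt). It is enough to treat a prime `e = p` (`sig (p e') 1 F = sig p 1 (sig e' 1 F)`, induction). `PSI` (factor `j = 0`, `sig 1 1 DDk = DDk`): `DDk` is a root of a monic polynomial with coefficients in `kk[Z]`, `Z = sig p 1 DDk`, so the elements algebraic over `kk(DDk)` are algebraic over `kk(Z)`, in particular `sig p 1 F`: `P (sig p 1 F) = 0`, `P ≠ 0` with coefficients in
`adjoin kk {Z} = (adjoin kk {DDk}).map (sig p 1)` (`IntermediateField.adjoin_map`). So `P` is the image under `sig p 1` of a polynomial `Q ≠ 0` over `adjoin kk {DDk}`, and `sig p 1 (Q F) = 0`, `Q F = 0` (`sig_injective`). -/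
def DWN_stmt : Prop := ∀ (e : ℕ) (F : LL), Odd e → sig e 1 F ∈ MM → F ∈ MM

/-- Row INVP (medium, 120 lines; from `CJS HCX DWN DVM ME`). `psi ∈ MM`: `XI` is a sum of quotients of sums of elements `sig E ζ DDk` (`E` odd; `ME`) of `MM`, `DWN`. `N0 = N`: `v.1 = e N`, `η ^ N = v.2` (`exists_unit_root`), `sig v.1 v.2 psi = sig e η (sig N 1 psi) = c + sum_a sum_(n ∈ NN a) (sig e η (HC n N ..) + sig e η (HC n (3 N) ..))`,
by HCX (for `N` and `3 N`) these are sums over the conjugates of `v`, `W = (D (up 3 v)) ^ 2 ^ (a+1)`, and over the conjugates of `(e 3 N, η ^ (3 N)) = up 3 v`, `W = (D v) ^ 2 ^ (a+1)`; the same for `v'`. `cl_add`, `cl_sum`, `CJS`. -/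
def INVP_stmt : Prop := ∀ (psi : LL) (c : kk) (N A : ℕ) (NN : ℕ → Finset ℕ), (∀ m, Odd m → ∀ ζ : kkˣ, ζ ∈ RU m ↔ ζ ^ m = 1) → Odd N →
  (∀ a < A, ∀ n ∈ NN a, Odd n ∧ n ∣ N) → sig N 1 psi = algebraMap kk LL c + XI N A NN → Inv3 psi

end Pool.Agent.QP
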