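import Pool.Agent.helper67.QP.SpecE

/-!
# QP (MP_ebc808_nt), Theorem Q*: the parities are taken at least c x^(1/3) / log x times

Paper proof: /team-store/H6_ebc808_Qstar_helper30.md. Theorem Q* (`QSTAR_stmt`): for every finite nonempty set `S` of integers `D = 23 mod 24`, every `N` and every `e` the number of the `m ≤ x` prime to `6 N` with
`∑_{D ∈ S} p((D m^2 + 1)/24) = e mod 2` is at least `c x^(1/3) / log x` for large `x`. It contains Theorem Q+.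
Idea: `F` = `psi f` or `psi f + UU`, `F' = PN N F`. For a prime `l` the function `HH l B F'` (value of `F'` at the vertex `(B,1)` plus its values at the `l` lower `l`-neighbours) has the coefficients `F'_(l n) + F'_n` at the exponents `B n`. It is not zero, its number of conjugates over `kk(D(q^B))` is at most `C (l+1)`,
its height at most `M (l+2)`, so one of its coefficients with `n ≤ C' l^2` is not zero; this gives an `m` divisible by `l`, `m ≤ C' l^3`, with the wanted parity.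

Rows: file `Pool/Agent/<seat>/QP/XXX.lean`, import `Pool.Agent.helper30.QP.SpecK`, namespace `Pool.Agent.QP`, `open Polynomial Pool.Agent.helper7.IG`, auxiliary lemmas prefixed `XXX_`. The statements `ME_stmt DI_stmt NB_stmt PSI_stmt ..` of `helper7/IG` and the rows of `SpecC`, `SpecV` are proved.
-/

set_option autoImplicit false

open Polynomial Pool.Agent.helper7.IG

noncomputable section

namespace Pool.Agent.QP

/-- **Theorem Q\***. -/
def QSTAR_stmt : Prop :=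
  ∀ S : Finset ℕ, S.Nonempty → (∀ D ∈ S, D % 24 = 23) → ∀ N : ℕ, 1 ≤ N → ∀ e : ZMod 2,
    ∃ c : ℝ, 0 < c ∧ ∀ᶠ x : ℕ in Filter.atTop, c * (x : ℝ) ^ (1 / 3 : ℝ) / Real.log x ≤
      (({m : ℕ | (m.Coprime (6 * N) ∧ (∑ D ∈ S, (Fintype.card (Nat.Partition ((D * m ^ 2 + 1) / 24)) : ZMod 2)) = e) ∧ m ≤ x}.ncard : ℕ) : ℝ)

/-! ### Conjugates -/

/-- `h` fixes the finitely many vertices `(B M, η)`, `M ∣ 3 N`, `η ^ N = 1`. -/
def FxN (Φ : Frame) (h : Φ.A ≃ₐ[kk] Φ.A) (B N : ℕ) : Prop :=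
  ∀ (M : ℕ) (η : kkˣ), M ∣ 3 * N → η ^ N = 1 → h (Φ.D (B * M, η)) = Φ.D (B * M, η)

/-- Row HV2 (copy of `HVS` of `Pool/Agent/helper30/QP/UPM.lean` with `FxN` in place of `Fx`). -/
def HV2_stmt : Prop := ∀ (Φ : Frame) (h : Φ.A ≃ₐ[kk] Φ.A) (B l N : ℕ) (c c' : Vx) (ξ : kkˣ), Odd B → l.Prime → l ≠ 2 → l ≠ 3 → N.Coprime l → 3 * l * N ^ 3 ∣ B →
  FxN Φ h B N → Nb l (B, 1) c → Nb l (B, 1) c' → h (Φ.D c) = Φ.D c' → ξ ^ N = 1 →
  h (Φ.D (ov l B c ξ)) = Φ.D (ov l B c' ξ) ∧ h (Φ.D (up 3 (ov l B c ξ))) = Φ.D (up 3 (ov l B c' ξ))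

/-- Row HP2 (from `PNS HV2 ME`; copy of `HPN` of `Pool/Agent/helper30/QP/HCX.lean`; the first claim: `sig B 1 (PN N F) = sum_ξ sig B ξ F` and `h` fixes `D (B, ξ)`, `D (3 B, ξ ^ 3)`, so `Inv3` with `v = v' = (B, ξ)`). -/
def HP2_stmt : Prop := ∀ (F : LL) (N l : ℕ), Inv3 F → Odd N → Squarefree N → l.Prime → l ≠ 2 → l ≠ 3 → N.Coprime l →
  ∃ B0 : ℕ, Odd B0 ∧ ∀ (Φ : Frame) (h : Φ.A ≃ₐ[kk] Φ.A) (B : ℕ), Odd B → B0 ∣ B → FxN Φ h B N →
    h (Φ.cl (sig B 1 (PN N F))) = Φ.cl (sig B 1 (PN N F)) ∧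
    ∀ c c' : Vx, Nb l (B, 1) c → Nb l (B, 1) c' → h (Φ.D c) = Φ.D c' → h (Φ.cl (sig c.1 c.2 (PN N F))) = Φ.cl (sig c'.1 c'.2 (PN N F))

open Classical in
/-- The `l`-neighbours of `(B, 1)`. -/
def AN (l B : ℕ) : Finset Vx := if h : {u : Vx | Nb l (B, 1) u}.Finite then h.toFinset else ∅

/-- Row ANF (short). `Nb l (B,1) u` means `u = (l B, 1)` or (`B = l u.1`, `u.2 ^ l = 1`), so `u.1 = B / l` and `u.2` is one of the at most `l` roots of unity (`rootsOfUnity l kk`, `card_rootsOfUnity`). -/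
def ANF_stmt : Prop := ∀ l B : ℕ, l.Prime → B ≠ 0 → (∀ u : Vx, u ∈ AN l B ↔ Nb l (B, 1) u) ∧ (AN l B).card ≤ l + 1

open Classical in
/-- The value of `F` at `(B, 1)` plus the sum of its values at the `l`-neighbours other than `u`. -/
def HU (l B : ℕ) (F : LL) (u : Vx) : LL :=
  sig B 1 F + ∑ u' ∈ (AN l B).erase u, sig u'.1 u'.2 F

/-- Row HHC (medium, from ANF). The coefficient of `sig B 1 F` at `m` is `F.coeff (m / B)` if `B ∣ m`. The elements of `(AN l B).erase (l B, 1)` are the `(B/l, ζ)`, `ζ ^ l = 1` (`l ∣ B`; `B / l ≠ l B`); `sum_ζ (sig (B/l) ζ F).coeff m = (sum_ζ ζ ^ t) F.coeff t` for `m = (B/l) t`, and the sum is `l = 1` if `l ∣ t` and `0` otherwise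
(`ζ = ω ^ j`, `exists_primitive`, geometric sum; cf. rows PNA of SpecC, URU of SpecV). For `l ∣ t`: `m = B (t/l)`, `t = l (m/B)`. -/
def HHC_stmt : Prop := ∀ (l B : ℕ) (F : LL), l.Prime → l ≠ 2 → Odd B → l ∣ B → ∀ m : ℤ,
  (HU l B F (l * B, 1)).coeff m = if (B : ℤ) ∣ m then F.coeff (l * (m / B)) + F.coeff (m / B) else 0

/-! ### Denominators -/

/-- `Q(D)` is a denominator of `F` at every vertex, and `M` bounds the heights. -/
def Den (F : LL) (Q : Polynomial kk) (M : ℕ) : Prop :=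
  (∀ v : Vx, v.1 ≠ 0 → IsIntegral (Algebra.adjoin kk {sig v.1 v.2 DDk}) (aeval (sig v.1 v.2 DDk) Q * sig v.1 v.2 F)) ∧
  ∀ (V : ValuationSubring LL) (v : Vx) (G : V.ValueGroup), v.1 ≠ 0 → (∀ c : kk, algebraMap kk LL c ∈ V) → 1 ≤ G → V.valuation (sig v.1 v.2 DDk) ≤ G →
    V.valuation (aeval (sig v.1 v.2 DDk) Q) ≤ G ^ M ∧ V.valuation (aeval (sig v.1 v.2 DDk) Q * sig v.1 v.2 F) ≤ G ^ M

/-- Row INT (medium). `F` is algebraic over `kk(D)`: there are polynomials `a_0, .., a_k` over `kk`, `k ≥ 1`, `a_k ≠ 0`, with `sum_i a_i(D) F^i = 0` (clear the denominators; `mem_MM`, `IsFractionRing.isAlgebraic_iff` for `Algebra.adjoin kk {DDk}`, elements of `Algebra.adjoin kk {DDk}` are `aeval DDk a`). `Q = a_k`, `M` the maximum of the degrees of the `a_i`. Multiply by `a_k^(k-1)`: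
`Y = Q(D) F` satisfies `Y^k + sum_(i < k) c_i(D) Y^i = 0`, `c_i = a_i a_k^(k-1-i)`, `deg c_i ≤ M (k - i)`. Apply the ring homomorphism `sig v.1 v.2` (over `kk`): the same equation at `v`. First claim. Second claim: the value of `a(D(v))` is at most `G ^ (deg a)` (`G ≥ 1`, constants have value `≤ 1`).
If the value of `Y` were `> G^M` then all the terms `c_i Y^i`, `i < k`, have value `≤ G^(M (k-i)) v(Y)^i < v(Y)^k`, but `Y^k` is their sum (characteristic 2): contradiction. -/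
def INT_stmt : Prop := ∀ F : LL, F ∈ MM → ∃ (Q : Polynomial kk) (M : ℕ), Q ≠ 0 ∧ Den F Q M

/-- Row PNI (short-medium, from PSI_stmt; like PNB of SpecV, Pool/Agent/helper34/QP/PNB.lean). Neighbours are integral: `Ψ` of PSI is monic in the outer variable, `Ψ_b(D(u)) = 0` with `b = D(v)`. -/
def PNI_stmt : Prop := ∀ (p : ℕ) (v u : Vx), p.Prime → p ≠ 2 → v.1 ≠ 0 → u.1 ≠ 0 → Nb p v u →
  IsIntegral (Algebra.adjoin kk {sig v.1 v.2 DDk}) (sig u.1 u.2 DDk)

/-- The product of the denominators at `(B, 1)` and its `l`-neighbours. -/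
def PI0 (Q : Polynomial kk) (l B : ℕ) : LL :=
  aeval (sig B 1 DDk) Q * ∏ u ∈ AN l B, aeval (sig u.1 u.2 DDk) Q

/-- `HU` times the denominators. -/
def YU (F : LL) (Q : Polynomial kk) (l B : ℕ) (u : Vx) : LL := PI0 Q l B * HU l B F u

/-- Row YIN (medium, from `ANF PNI PNB`). Let `R` be the integral closure of `kk[D(B,1)]` in `LL` (`integralClosure`). The `D(u)`, `u ∈ AN l B`, are in `R` (PNI, ANF), so the `Q(D(u))` and (transitivity: integral over `Algebra.adjoin kk {D(u)}`, which is contained in `R`) the `Q(D(u)) sig u F` are in `R`; the same for `(B,1)`. So `PI0` and `YU` are in `R`: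
`PI0 * sig u F = Q(D(B,1)) (Q(D(u)) sig u F) ∏_(u' ≠ u) Q(D(u'))` and `PI0 * sig B 1 F = (Q(D(B,1)) sig B 1 F) ∏ Q(D(u))`. Values: `G = v (D(B,1)) > 1`, `v (D(u)) ≤ max G 1 = G` (PNB), so every `Q(D(u))` and `Q(D(u)) sig u F` has value `≤ G^M` and every term of `YU` has value `≤ (G^M)^(card + 1) ≤ G^(M (l+2))`. -/
def YIN_stmt : Prop := ∀ (F : LL) (Q : Polynomial kk) (M l B : ℕ) (u : Vx), Den F Q M → l.Prime → l ≠ 2 → Odd B → l ∣ B →
  IsIntegral (Algebra.adjoin kk {sig B 1 DDk}) (YU F Q l B u) ∧ IsIntegral (Algebra.adjoin kk {sig B 1 DDk}) (PI0 Q l B) ∧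
  ∀ V : ValuationSubring LL, (∀ c : kk, algebraMap kk LL c ∈ V) → sig B 1 DDk ∉ V → V.valuation (YU F Q l B u) ≤ V.valuation (sig B 1 DDk) ^ (M * (l + 2))

/-- Row NVH (medium, from `HEX HP2 ANF PMM DSC FR DI NB ME`). `B0 = 3 N^3 l` times the number of HP2. Suppose `HU l B F' (l B, 1) = 0`, `F' = PN N F`. Take a Frame and `h` of HEX for `B`, `l`: it satisfies `FxN` (`M ∣ 3 N` is prime to `l`, `K = N`, `M N² ∣ B`) and `h (D (l B, 1)) = D (B/l, 1)`. `h` maps the neighbours `AN l B` bijectively to themselves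
(NB, DI, finite), so applying `h` to `cl` of `sig B 1 F' + sum_(u ≠ (lB,1)) sig u F' = 0` gives (HP2, `cl_sum`) `sig B 1 F' + sum_(u ≠ (B/l,1)) sig u F' = 0`. Compare (characteristic 2): `sig (l B) 1 F' = sig (B/l) 1 F'`. DSC with `e = B/l` (`l * l * (B/l) = l B`): `F'` is a constant, contradiction. -/
def NVH_stmt : Prop := ∀ (F : LL) (N l : ℕ), Inv3 F → Odd N → Squarefree N → l.Prime → l ≠ 2 → l ≠ 3 → N.Coprime l → (∀ c : kk, PN N F ≠ algebraMap kk LL c) →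
  ∃ B0 : ℕ, Odd B0 ∧ ∀ B : ℕ, Odd B → B0 ∣ B → HU l B (PN N F) (l * B, 1) ≠ 0

/-- Row ORA (medium, from `HP2 ANF PMM DI NB ME`). `B0` = `l` times the number of HP2. `γ` fixes `D (B,1)` (`M = 1`). For `u' ∈ AN l B` there is `u'' ∈ AN l B` with `γ (D u') = D u''` (NB); the map is injective (DI), so a permutation of `AN l B`; `u` = the image of `(l B, 1)`. `γ (cl (aeval (D u') Q)) = cl (aeval (D u'') Q)` (`cl` is a ring homomorphism on `MM`, `γ` over `kk`),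
so `γ` fixes `cl (PI0 Q l B)`; `γ (cl (sig u' F')) = cl (sig u'' F')` and `cl (sig B 1 F')` is fixed (HP2). -/
def ORA_stmt : Prop := ∀ (F : LL) (N l : ℕ), Inv3 F → Odd N → Squarefree N → l.Prime → l ≠ 2 → l ≠ 3 → N.Coprime l →
  ∃ B0 : ℕ, Odd B0 ∧ ∀ (Q : Polynomial kk) (Φ : Frame) (γ : Φ.A ≃ₐ[kk] Φ.A) (B : ℕ), Odd B → B0 ∣ B → FxN Φ γ B N →
    ∃ u ∈ AN l B, γ (Φ.cl (YU (PN N F) Q l B (l * B, 1))) = Φ.cl (YU (PN N F) Q l B u)

open Classical in
/-- The images under `g` of the vertices `(B M, η)`, `M ∣ 3 N`, `η ^ N = 1`. -/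
def tup (Φ : Frame) (B N : ℕ) (g : Φ.A ≃ₐ[kk] Φ.A) : Vx → Φ.A :=
  fun v => if v.1 ∣ 3 * N ∧ v.2 ^ N = 1 then g (Φ.D (B * v.1, v.2)) else 0

/-- Row IDX (medium, from ME). The set `Σ` of the `v = (M, η)`, `M ∣ 3 N`, `η ^ N = 1`, is finite. `sig M η DDk` (`M` odd) is in `MM` (ME), so algebraic over `kk(D)`: there is `R_v : Polynomial (Polynomial kk)`, `R_v ≠ 0`, with `sum_i (coeff i)(DDk) (sig M η DDk)^i = 0`. Apply `sig B 1` (`sig B 1 (sig M η F) = sig (B M) η F`, `sig_sig`) and `cl` and `g`: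
`g (D (B M, η))` is a root of the polynomial `R_v` with `D (B,1)` inserted in the coefficients (`g` fixes it), which is not zero since `D (B,1)` is transcendental over `kk` (`ME_transc_sig` in helper99/IG/ME.lean, `cl_inj`), so it is one of at most `natDegree R_v` elements of a finite set `Z_v`. `T` = the functions with values in `Z_v` for `v ∈ Σ` and `0` outside `Σ`
(image of `Fintype.piFinset` or `Finset.pi`), `C = ∏_(v ∈ Σ) natDegree R_v` (independent of `Φ` and `B`). -/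
def IDX_stmt : Prop := ∀ N : ℕ, Odd N → ∃ C : ℕ, ∀ (Φ : Frame) (B : ℕ), Odd B →
  ∃ T : Finset (Vx → Φ.A), T.card ≤ C ∧ ∀ g : Φ.A ≃ₐ[kk] Φ.A, g (Φ.D (B, 1)) = Φ.D (B, 1) → tup Φ B N g ∈ T

/-- Row ORB (medium, from `IDX ORA ANF`). `T` from IDX. If `g, g'` fix `D (B,1)` and `tup g = tup g'` then `γ = g⁻¹ g'` satisfies `FxN`, so by ORA `g' (cl Y) = g (γ (cl Y)) = g (cl (YU .. u))` for some `u ∈ AN l B`. Choose for every `t ∈ T` which occurs one `g_t`: the orbit is contained in the finite set of the `g_t (cl (YU .. u))`, with at most `C (l + 1)` elements; `O` = the orbit. -/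
def ORB_stmt : Prop := ∀ N : ℕ, Odd N → Squarefree N → ∃ C : ℕ, ∀ (F : LL) (l : ℕ), Inv3 F → l.Prime → l ≠ 2 → l ≠ 3 → N.Coprime l →
  ∃ B0 : ℕ, Odd B0 ∧ ∀ (Q : Polynomial kk) (Φ : Frame) (B : ℕ), Odd B → B0 ∣ B → ∃ O : Finset Φ.A, O.card ≤ C * (l + 1) ∧
    ∀ o : Φ.A, o ∈ O ↔ ∃ g : Φ.A ≃ₐ[kk] Φ.A, g (Φ.D (B, 1)) = Φ.D (B, 1) ∧ o = g (Φ.cl (YU (PN N F) Q l B (l * B, 1)))

/-- A Frame with the full fixed field property. -/
def FFx (Φ : Frame) : Prop := ∀ (N : ℕ) (a : Φ.A), Odd N → (∀ g : Φ.A ≃ₐ[kk] Φ.A, g (Φ.D (N, 1)) = Φ.D (N, 1) → g a = a) →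
  ∃ (s : ℕ) (z : LL), z ∈ IntermediateField.adjoin kk {sig N 1 DDk} ∧ a ^ (2 ^ s) = Φ.cl z

/-- Row FRA (medium-short; adaptation of `Pool/Agent/helper99/IG/FR.lean`, from ME). The Frame of `FR_of` has the property: `A = AlgebraicClosure MM`; proof of `FR_fix` with an arbitrary element `Y = a` of `A`: `natSepDegree (minpoly K a) = 1`, so `a ^ (2 ^ s) = algebraMap K A c`, `K = adjoin kk {d}`. -/
def FRA_stmt : Prop := ∃ Φ : Frame, FFx Φ

/-- Row POL (medium). `f = ∏_(o ∈ O) (X - C o)`. A `g` which fixes `D (B,1)` permutes `O`, so the coefficients `f_i` of `f` are fixed by these `g`; `FFx`: `f_i ^ (2 ^ (s_i)) = cl z_i`, `z_i ∈ K = adjoin kk {sig B 1 DDk}`. Let `s` be the maximum of the `s_i`, `i ≤ card O`, `z'_i = z_i ^ (2 ^ (s - s_i))`: `f_i ^ (2 ^ s) = cl z'_i`. `P = sum_i C z'_i X^i` (`i ≤ card O`).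
`cl (P (y ^ (2 ^ s))) = sum_i (f_i (cl y)^i) ^ (2 ^ s) = (f (cl y)) ^ (2 ^ s) = 0` (Frobenius) since `cl y ∈ O` (`g = 1`). `K ≤ MM` (ME), `cl` is injective on `MM` (`cl_inj`), so `P (y ^ (2 ^ s)) = 0`. `P ≠ 0`: `cl z'_top = 1`. -/
def POL_stmt : Prop := ∀ Φ : Frame, FFx Φ → ∀ (B : ℕ) (y : LL) (O : Finset Φ.A), Odd B → y ∈ MM →
  (∀ o : Φ.A, o ∈ O ↔ ∃ g : Φ.A ≃ₐ[kk] Φ.A, g (Φ.D (B, 1)) = Φ.D (B, 1) ∧ o = g (Φ.cl y)) →
  ∃ (s : ℕ) (P : Polynomial LL), P ≠ 0 ∧ P.natDegree ≤ O.card ∧ (∀ i, P.coeff i ∈ IntermediateField.adjoin kk {sig B 1 DDk}) ∧ P.eval (y ^ (2 ^ s)) = 0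

/-! ### The height lemma -/

/-- Row HTA (short; cf. PLC of SpecV, Pool/Agent/helper68/QP/PLC.lean; Mathlib `Subring.exists_le_valuationSubring_of_isIntegrallyClosedIn`). An element of all valuation rings which contain `kk[x]` is integral over `kk[x]`: apply it to the integral closure of `Algebra.adjoin kk {x}` in `LL`. -/
def HTA_stmt : Prop := ∀ x z : LL, (∀ V : ValuationSubring LL, (∀ c : kk, algebraMap kk LL c ∈ V) → x ∈ V → z ∈ V) → IsIntegral (Algebra.adjoin kk {x}) z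

/-- Row HTB (medium-long, commutative algebra; only Mathlib). `R = Algebra.adjoin kk {x}` and `R' = Algebra.adjoin kk {x⁻¹}` are isomorphic to polynomial rings (`x`, `x⁻¹` transcendental), so integrally closed, with fraction field `K = IntermediateField.adjoin kk {x}`. Let `f = X^j + a_(j-1) X^(j-1) + .. + a_0` be the minimal polynomial of `y` over `K`; `j ≤ k`; `a_0 ≠ 0`
(`y ≠ 0`, `f` irreducible). The coefficients are in `R` (`minpoly.isIntegrallyClosed_eq_field_fractions`): `a_0 = A(x)`. The minimal polynomial of `y x^(-T)` over `K` is the `scaleRoots` of `f`, its constant coefficient `a_0 x^(-T j)` is in `R'`: `A(x) x^(-T j) = A'(x⁻¹)`. So `deg A ≤ T j`: otherwise multiply by `x^m`, `m` large: `A(x) x^(m - T j) = x^m A'(1/x)`, a polynomial in `x`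
of degree `≤ m` (`x` transcendental). `z = - (y^(j-1) + a_(j-1) y^(j-2) + .. + a_1)` is integral over `R`, `y z = a_0`. -/
def HTB_stmt : Prop := ∀ (x y : LL) (T k : ℕ), Transcendental kk x → y ≠ 0 → IsIntegral (Algebra.adjoin kk {x}) y → IsIntegral (Algebra.adjoin kk {x⁻¹}) (y * x⁻¹ ^ T) →
  (∃ P : Polynomial LL, P ≠ 0 ∧ P.natDegree ≤ k ∧ (∀ i, P.coeff i ∈ IntermediateField.adjoin kk {x}) ∧ P.eval y = 0) →
  ∃ (A : Polynomial kk) (z : LL), A ≠ 0 ∧ A.natDegree ≤ k * T ∧ IsIntegral (Algebra.adjoin kk {x}) z ∧ aeval x A = y * z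

/-- Row INO (short). `DDk` has no coefficients at negative exponents (`DDk_coeff`, `sig_coeff`), so the elements of `Algebra.adjoin kk {sig e ζ DDk}` are power series; an element `y` of `LL` with a monic equation over the power series is a power series: if its order were `- a < 0` the term `y^n` has order `- a n` and the others have orders `≥ - a (n-1)`
(or: `HahnSeries` valuations, or `PowerSeries` is integrally closed in Laurent series). -/
def INO_stmt : Prop := ∀ (e : ℕ) (ζ : kkˣ) (y : LL), e ≠ 0 → IsIntegral (Algebra.adjoin kk {sig e ζ DDk}) y → ∀ n : ℤ, n < 0 → y.coeff n = 0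

/-- Row HTC (short-medium, from INO). `x = sig B 1 DDk` has order `B` (coefficient `1` at `B`, `0` below). Let `j` be the order of vanishing of `A` at `0`, `j ≤ natDegree A ≤ d`: `aeval x A` has order `B j`, so coefficient `≠ 0` at `B j ≤ B d`. Both `y` and `z` are power series (INO), `y z = aeval x A`, so a coefficient of `y` at some `n ≤ B j` is not `0`. -/
def HTC_stmt : Prop := ∀ (B d : ℕ) (A : Polynomial kk) (y z : LL), B ≠ 0 → A ≠ 0 → A.natDegree ≤ d → IsIntegral (Algebra.adjoin kk {sig B 1 DDk}) y →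
  IsIntegral (Algebra.adjoin kk {sig B 1 DDk}) z → aeval (sig B 1 DDk) A = y * z → ∃ n : ℕ, n ≤ B * d ∧ y.coeff (n : ℤ) ≠ 0

/-- Row HTL (short-medium, from `HTA HTB HTC`). `x = sig B 1 DDk` is transcendental over `kk`. `y x^(-T)` is integral over `kk[x⁻¹]` (HTA with `x⁻¹`): let `V` be a valuation ring containing `kk` and `x⁻¹`. If `x ∉ V`: `v y ≤ v(x)^T`, so `v (y x^(-T)) ≤ 1`. If `x ∈ V`: `y` is integral over `kk[x] ⊆ V`, so `y ∈ V` (valuation rings are integrally closed) and `x⁻¹ ∈ V`. Then HTB, HTC. -/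
def HTL_stmt : Prop := ∀ (B T k : ℕ) (y : LL), B ≠ 0 → y ≠ 0 → IsIntegral (Algebra.adjoin kk {sig B 1 DDk}) y →
  (∀ V : ValuationSubring LL, (∀ c : kk, algebraMap kk LL c ∈ V) → sig B 1 DDk ∉ V → V.valuation y ≤ V.valuation (sig B 1 DDk) ^ T) →
  (∃ P : Polynomial LL, P ≠ 0 ∧ P.natDegree ≤ k ∧ (∀ i, P.coeff i ∈ IntermediateField.adjoin kk {sig B 1 DDk}) ∧ P.eval y = 0) →
  ∃ n : ℕ, n ≤ B * (k * T) ∧ y.coeff (n : ℤ) ≠ 0

/-- Row KEY (medium, from `LEMC PMM INT YIN NVH ORB FRA POL HTL HHC INO ME`). `F' = PN N F ∈ MM` (PMM), not constant (LEMC with `P = 1`, `Q = C c`; `PN N F` constant implies `F` constant). `Q, M` from INT for `F'`; `C₁` from ORB; `C = 6 C₁ (M + 1)`. Given `l`: `B` = product of the numbers `B0` of NVH and ORB and `l`. `Y = YU F' Q l B (l B, 1) = PI0 * HU`, `Y ≠ 0`: NVH, and the factors `aeval (D u) Q` are not `0`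
(`D u` transcendental, `u.1 ≠ 0`). `Φ` from FRA, `O` from ORB, `s, P` from POL (`Y ∈ MM`: ME). `Y ^ (2^s)` satisfies the hypotheses of HTL with `T = M (l+2) 2^s` (YIN) and `k = C₁ (l+1)`: a coefficient of `Y^(2^s)` at some `n ≤ B k T` is not zero, so the order of `Y` is `≤ B C₁ (l+1) M (l+2)` (order of a power), and since `PI0` has order `≥ 0` (INO, YIN) the order `o` of `HU` satisfies
`o ≤ B C₁ (l+1) M (l+2)`. HHC: `B ∣ o`, `o = B n`, `F'.coeff (l n) + F'.coeff n ≠ 0`, `n ≥ 0` as `F'` has no negative exponents, `n ≤ C₁ M (l+1) (l+2) ≤ C l^2`. -/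
def KEY_stmt : Prop := ∀ (F : LL) (N : ℕ), Inv3 F → (∀ n : ℤ, n < 0 → F.coeff n = 0) → Squarefree N → N.Coprime 6 → (∀ c : kk, F ≠ algebraMap kk LL c) →
  ∃ C : ℕ, ∀ l : ℕ, l.Prime → 5 ≤ l → N.Coprime l → ∃ n : ℕ, n ≤ C * l ^ 2 ∧ (PN N F).coeff ((l * n : ℕ) : ℤ) + (PN N F).coeff (n : ℤ) ≠ 0

/-! ### Arithmetic -/

/-- Row ARI (short-medium). `n ≠ 0` (otherwise the sum is `a + a = 0`). `gcd (l n, N) = gcd (n, N)` (`l` prime to `N`), so it is `1` (`PN_coeff`), and `0 ≠ ∑_(m ∣ l n) β m + ∑_(m ∣ n) β m = ∑_(m ∣ l n, not m ∣ n) β m` (characteristic 2). So there is `m ∣ l n`, not `m ∣ n`, with `β m ≠ 0`; if `l` did not divide `m`, `m` would be prime to `l` and divide `n`. `m` divides `l n`, which is prime to `N`. -/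
def ARI_stmt : Prop := ∀ (F : LL) (β : ℕ → kk) (N l n : ℕ), (∀ n : ℕ, 0 < n → F.coeff (n : ℤ) = ∑ m ∈ n.divisors, β m) → l.Prime → N.Coprime l →
  (PN N F).coeff ((l * n : ℕ) : ℤ) + (PN N F).coeff (n : ℤ) ≠ 0 → ∃ m : ℕ, β m ≠ 0 ∧ 0 < m ∧ l ∣ m ∧ m ≤ l * n ∧ m.Coprime N

/-- Row CHB (medium; only Mathlib, a lower bound of Chebyshev type for the number of primes). `C ≥ 1`. For large `x` let `y = ⌊(x/C)^(1/3)⌋`, so `C y^3 ≤ x`. For every prime `l` with `√y < l ≤ y` (so `l ≥ l0`) choose `m_l ∈ A`, `l ∣ m_l`, `m_l ≤ C l^3 ≤ x`. A given `m ≤ C y^3` is `m_l` for at most 6 primes `l > √y`: the product of 7 such primes is `> y^(7/2) > C y^3` for large `y`.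
So the count is at least `(π(y) - π(√y))/6 ≥ (π(y) - √y)/6 ≥ c y/log y` (`π(y) ≥ c₀ y/log y`). `y ≥ (x/C)^(1/3)/2`, `log y ≤ log x`. -/
def CHB_stmt : Prop := ∀ (A : Set ℕ) (C l0 : ℕ), (∀ l : ℕ, l.Prime → l0 ≤ l → ∃ m ∈ A, 0 < m ∧ l ∣ m ∧ m ≤ C * l ^ 3) →
  ∃ c : ℝ, 0 < c ∧ ∀ᶠ x : ℕ in Filter.atTop, c * (x : ℝ) ^ (1 / 3 : ℝ) / Real.log x ≤ (({m : ℕ | m ∈ A ∧ m ≤ x}.ncard : ℕ) : ℝ)

end Pool.Agent.QP
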